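import Mathlib

set_option autoImplicit false

/-! Solutions of linear recurrences over a commutative ring. -/

namespace Pool.Agent.Work.MP_8d13b5_lc.Pd

open Polynomial Finset

section ring

variable {A : Type*} [CommRing A]

/-- `s` satisfies the linear recurrence with characteristic polynomial `f` -/
def Sol (f : A[X]) (s : ℕ → A) : Prop :=
  ∀ n, ∑ i ∈ range (f.natDegree + 1), f.coeff i * s (n + i) = 0

/-- the shift operator -/
def shf (A : Type*) [CommRing A] : (ℕ → A) →ₗ[A] (ℕ → A) where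
  toFun u n := u (n + 1)
  map_add' _ _ := rfl
  map_smul' _ _ := rfl

theorem shf_pow (k : ℕ) (u : ℕ → A) (n : ℕ) : ((shf A) ^ k) u n = u (n + k) := by
  induction k generalizing n with
  | zero => simp
  | succ k ih =>
    rw [pow_succ', Module.End.mul_apply]
    show ((shf A) ^ k) u (n + 1) = _
    rw [ih]
    congr 1
    ring

theorem aeval_shf (P : A[X]) (u : ℕ → A) (n : ℕ) :
    (aeval (shf A) P) u n = ∑ i ∈ range (P.natDegree + 1), P.coeff i * u (n + i) := by
  rw [aeval_eq_sum_range, LinearMap.sum_apply, Finset.sum_apply]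
  refine sum_congr rfl fun i _ => ?_
  rw [LinearMap.smul_apply, Pi.smul_apply, shf_pow, smul_eq_mul]

theorem sol_iff (P : A[X]) (u : ℕ → A) : Sol P u ↔ aeval (shf A) P u = 0 := by
  constructor
  · intro h
    funext n
    rw [aeval_shf]
    exact h n
  · intro h n
    rw [← aeval_shf, h]
    rfl

theorem Sol.add {P : A[X]} {u v : ℕ → A} (hu : Sol P u) (hv : Sol P v) :
    Sol P (fun n => u n + v n) := by
  rw [sol_iff] at *
  have : (fun n => u n + v n) = u + v := rfl
  rw [this, map_add, hu, hv, add_zero]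

theorem Sol.sub {P : A[X]} {u v : ℕ → A} (hu : Sol P u) (hv : Sol P v) :
    Sol P (fun n => u n - v n) := by
  rw [sol_iff] at *
  have : (fun n => u n - v n) = u - v := rfl
  rw [this, map_sub, hu, hv, sub_zero]

theorem Sol.smul {P : A[X]} {u : ℕ → A} (hu : Sol P u) (a : A) :
    Sol P (fun n => a * u n) := by
  rw [sol_iff] at *
  have : (fun n => a * u n) = a • u := rfl
  rw [this, map_smul, hu, smul_zero]

theorem Sol.sum {P : A[X]} {ι : Type*} (S : Finset ι) {u : ι → ℕ → A}
    (hu : ∀ i ∈ S, Sol P (u i)) : Sol P (fun n => ∑ i ∈ S, u i n) := by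
  rw [sol_iff]
  have : (fun n => ∑ i ∈ S, u i n) = ∑ i ∈ S, u i := by
    funext n
    rw [Finset.sum_apply]
  rw [this, map_sum]
  exact sum_eq_zero fun i hi => (sol_iff _ _).1 (hu i hi)

theorem Sol.mul_left {P : A[X]} {u : ℕ → A} (hu : Sol P u) (Q : A[X]) : Sol (Q * P) u := by
  rw [sol_iff] at *
  rw [map_mul, Module.End.mul_apply, hu, map_zero]

theorem Sol.mul_right {P : A[X]} {u : ℕ → A} (hu : Sol P u) (Q : A[X]) : Sol (P * Q) u := by
  rw [mul_comm]
  exact hu.mul_left Q

theorem Sol.next {f : A[X]} (hf : f.Monic) {s : ℕ → A} (hs : Sol f s) (n : ℕ) :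
    s (n + f.natDegree) = -∑ i ∈ range f.natDegree, f.coeff i * s (n + i) := by
  have h := hs n
  rw [sum_range_succ, hf.coeff_natDegree, one_mul] at h
  exact eq_neg_of_add_eq_zero_right h

theorem Sol.eq_zero {f : A[X]} (hf : f.Monic) {s : ℕ → A} (hs : Sol f s)
    (h0 : ∀ i < f.natDegree, s i = 0) (n : ℕ) : s n = 0 := by
  induction n using Nat.strong_induction_on with
  | _ n ih =>
    by_cases hn : n < f.natDegree
    · exact h0 n hn
    · obtain ⟨j, rfl⟩ : ∃ j, n = j + f.natDegree := ⟨n - f.natDegree, by omega⟩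
      rw [hs.next hf]
      rw [sum_eq_zero, neg_zero]
      intro i hi
      rw [mem_range] at hi
      rw [ih (j + i) (by omega), mul_zero]

theorem Sol.ext {f : A[X]} (hf : f.Monic) {s t : ℕ → A} (hs : Sol f s) (ht : Sol f t)
    (h0 : ∀ i < f.natDegree, s i = t i) (n : ℕ) : s n = t n := by
  have := (hs.sub ht).eq_zero hf (fun i hi => by rw [h0 i hi, sub_self]) n
  exact sub_eq_zero.1 this

/-- a solution vanishing from some index on is zero -/
theorem Sol.zero_of_eventually [IsDomain A] {f : A[X]} (hf0 : f.coeff 0 ≠ 0) {s : ℕ → A}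
    (hs : Sol f s) {n₀ : ℕ} (h0 : ∀ n, n₀ ≤ n → s n = 0) (n : ℕ) : s n = 0 := by
  induction n₀ generalizing n with
  | zero => exact h0 n (Nat.zero_le n)
  | succ k ih =>
    apply ih
    intro j hj
    rcases Nat.lt_or_ge k j with h | h
    · exact h0 j h
    · have hjk : j = k := le_antisymm h hj
      subst hjk
      have h1 := hs j
      rw [sum_range_succ', add_zero, sum_eq_zero, zero_add] at h1
      · exact (mul_eq_zero.1 h1).resolve_left hf0
      · intro i _
        rw [h0 (j + (i + 1)) (by omega), mul_zero]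

/-- the coefficients expressing the `n`-th term through the initial values -/
noncomputable def cf (f : A[X]) (n c : ℕ) : A := ((X ^ n : A[X]) %ₘ f).coeff c

theorem cf_init [Nontrivial A] {f : A[X]} (hf : f.Monic) {n : ℕ} (hn : n < f.natDegree) (c : ℕ) :
    cf f n c = if c = n then 1 else 0 := by
  unfold cf
  rw [(modByMonic_eq_self_iff hf).2, coeff_X_pow]
  rw [degree_X_pow, degree_eq_natDegree hf.ne_zero]
  exact_mod_cast hn

theorem cf_sol {f : A[X]} (hf : f.Monic) (c : ℕ) : Sol f (fun n => cf f n c) := by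
  intro n
  have h1 : ∑ i ∈ range (f.natDegree + 1), f.coeff i * cf f (n + i) c =
      ((∑ i ∈ range (f.natDegree + 1), f.coeff i • (X ^ (n + i) : A[X])) %ₘ f).coeff c := by
    have h2 : (∑ i ∈ range (f.natDegree + 1), f.coeff i • (X ^ (n + i) : A[X])) %ₘ f =
        ∑ i ∈ range (f.natDegree + 1), f.coeff i • ((X ^ (n + i) : A[X]) %ₘ f) := by
      have := map_sum (modByMonicHom f) (fun i => f.coeff i • (X ^ (n + i) : A[X]))
        (range (f.natDegree + 1))
      simp only [map_smul] at this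
      exact this
    rw [h2, finsetSum_coeff]
    refine sum_congr rfl fun i _ => ?_
    rw [coeff_smul, smul_eq_mul]
    rfl
  rw [h1]
  have h3 : ∑ i ∈ range (f.natDegree + 1), f.coeff i • (X ^ (n + i) : A[X]) = X ^ n * f := by
    conv_rhs => rw [f.as_sum_range, mul_sum]
    refine sum_congr rfl fun i _ => ?_
    rw [← C_mul_X_pow_eq_monomial, smul_eq_C_mul, pow_add]
    ring
  rw [h3]
  have h4 : (X ^ n * f) %ₘ f = 0 := (modByMonic_eq_zero_iff_dvd hf).2 (Dvd.intro_left _ rfl)
  rw [h4, coeff_zero]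

theorem sol_of_init {f : A[X]} (hf : f.Monic) (v : ℕ → A) :
    Sol f (fun n => ∑ c ∈ range f.natDegree, cf f n c * v c) := by
  apply Sol.sum
  intro c _
  have := (cf_sol hf c).smul (v c)
  refine (sol_iff _ _).2 ?_
  rw [sol_iff] at this
  convert this using 2
  funext n
  ring

theorem init_of_init [Nontrivial A] {f : A[X]} (hf : f.Monic) (v : ℕ → A) {n : ℕ}
    (hn : n < f.natDegree) : ∑ c ∈ range f.natDegree, cf f n c * v c = v n := by
  rw [sum_eq_single n]
  · rw [cf_init hf hn, if_pos rfl, one_mul]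
  · intro c _ hc
    rw [cf_init hf hn, if_neg hc, zero_mul]
  · intro h
    exact absurd (mem_range.2 hn) h

theorem Sol.expand [Nontrivial A] {f : A[X]} (hf : f.Monic) {s : ℕ → A} (hs : Sol f s) (n : ℕ) :
    s n = ∑ c ∈ range f.natDegree, cf f n c * s c :=
  Sol.ext hf hs (sol_of_init hf s) (fun i hi => (init_of_init hf s hi).symm) n

theorem Sol.scale {f : A[X]} {s : ℕ → A} (hs : Sol f s) (β : A) :
    Sol (f.scaleRoots β) (fun n => β ^ n * s n) := by
  intro n
  rw [natDegree_scaleRoots]
  have h1 : ∀ i ∈ range (f.natDegree + 1), (f.scaleRoots β).coeff i * (β ^ (n + i) * s (n + i)) =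
      β ^ (n + f.natDegree) * (f.coeff i * s (n + i)) := by
    intro i hi
    rw [mem_range] at hi
    rw [coeff_scaleRoots]
    have : β ^ (n + f.natDegree) = β ^ (f.natDegree - i) * β ^ (n + i) := by
      rw [← pow_add]
      congr 1
      omega
    rw [this]
    ring
  rw [sum_congr rfl h1, ← mul_sum, hs n, mul_zero]

theorem monic_scaleRoots {f : A[X]} (hf : f.Monic) (β : A) : (f.scaleRoots β).Monic :=
  (monic_scaleRoots_iff β).2 hf

theorem cf_scale [Nontrivial A] {f : A[X]} (hf : f.Monic) (β : A) (n c : ℕ) : β ^ n * cf f n c = β ^ c * cf (f.scaleRoots β) n c := by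
  refine Sol.ext (monic_scaleRoots hf β) ((cf_sol hf c).scale β)
    ((cf_sol (monic_scaleRoots hf β) c).smul (β ^ c)) ?_ n
  intro i hi
  have hi' : i < f.natDegree := by rwa [natDegree_scaleRoots] at hi
  show β ^ i * cf f i c = β ^ c * cf (f.scaleRoots β) i c
  rw [cf_init hf hi', cf_init (monic_scaleRoots hf β) hi]
  split_ifs with h
  · rw [h]
  · rw [mul_zero, mul_zero]

/-- image of a solution under a ring homomorphism -/
theorem Sol.map {B : Type*} [CommRing B] {f : A[X]} {s : ℕ → A} (hs : Sol f s) (φ : A →+* B) :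
    Sol (f.map φ) (fun n => φ (s n)) := by
  rw [sol_iff]
  funext n
  rw [aeval_eq_sum_range' (n := f.natDegree + 1)
    (lt_of_le_of_lt natDegree_map_le (Nat.lt_succ_self _)), LinearMap.sum_apply, Finset.sum_apply]
  have h1 : ∀ i ∈ range (f.natDegree + 1),
      (((f.map φ).coeff i • (shf B) ^ i) fun n => φ (s n)) n = φ (f.coeff i * s (n + i)) := by
    intro i _
    rw [LinearMap.smul_apply, Pi.smul_apply, shf_pow, smul_eq_mul, coeff_map, map_mul]
  rw [sum_congr rfl h1, ← map_sum, hs n, map_zero]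
  rfl

end ring

/-- growth of the solutions of a recurrence over `ℂ` in terms of the roots -/
theorem growth {a : ℝ} (ha : 1 ≤ a) (l : Multiset ℂ) (hl : ∀ z ∈ l, ‖z‖ ≤ a) (s : ℕ → ℂ) (U : ℝ)
    (hU : 0 ≤ U) (hs0 : ∀ i < l.card, ‖s i‖ ≤ U)
    (hs : aeval (shf ℂ) (l.map (fun z => X - C z)).prod s = 0) (n : ℕ) :
    ‖s n‖ ≤ U * 2 ^ l.card * (2 * a) ^ n := by
  induction l using Multiset.induction_on generalizing s U n with
  | empty =>
    rw [Multiset.map_zero, Multiset.prod_zero, map_one, Module.End.one_apply] at hs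
    rw [hs, Pi.zero_apply, norm_zero]
    positivity
  | cons z l ih =>
    rw [Multiset.map_cons, Multiset.prod_cons, mul_comm, map_mul, Module.End.mul_apply] at hs
    set s' := aeval (shf ℂ) (X - C z) s with hs'
    have hs'n : ∀ n, s' n = s (n + 1) - z * s n := by
      intro n
      rw [hs', map_sub, aeval_X, aeval_C, LinearMap.sub_apply, Pi.sub_apply,
        Module.algebraMap_end_apply, Pi.smul_apply, smul_eq_mul]
      rfl
    have hz : ‖z‖ ≤ a := hl z (Multiset.mem_cons_self z l)
    rw [Multiset.card_cons] at hs0 ⊢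
    have hs'0 : ∀ i < l.card, ‖s' i‖ ≤ 2 * a * U := by
      intro i hi
      rw [hs'n]
      refine (norm_sub_le _ _).trans ?_
      rw [norm_mul]
      have h1 := hs0 (i + 1) (by omega)
      have h2 := hs0 i (by omega)
      have h3 : ‖z‖ * ‖s i‖ ≤ a * U := mul_le_mul hz h2 (norm_nonneg _) (by linarith)
      nlinarith
    have ih' := fun n => ih (fun w hw => hl w (Multiset.mem_cons_of_mem hw)) s' (2 * a * U)
      (by positivity) hs'0 hs n
    induction n with
    | zero =>
      have h1 := hs0 0 (by omega)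
      rw [pow_zero, mul_one]
      refine h1.trans (le_mul_of_one_le_right hU (one_le_pow₀ (by norm_num)))
    | succ n ihn =>
      have h1 : s (n + 1) = s' n + z * s n := by rw [hs'n]; ring
      rw [h1]
      refine (norm_add_le _ _).trans ?_
      rw [norm_mul]
      have h2 := ih' n
      have h3 : ‖z‖ * ‖s n‖ ≤ a * (U * 2 ^ (l.card + 1) * (2 * a) ^ n) :=
        mul_le_mul hz ihn (norm_nonneg _) (by linarith)
      calc ‖s' n‖ + ‖z‖ * ‖s n‖ ≤ 2 * a * U * 2 ^ l.card * (2 * a) ^ n +
            a * (U * 2 ^ (l.card + 1) * (2 * a) ^ n) := add_le_add h2 h3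
        _ = U * 2 ^ (l.card + 1) * (2 * a) ^ (n + 1) := by ring

theorem growth_ring {R : Type*} [CommRing R] {a : ℝ} (ha : 1 ≤ a) (φ : R →+* ℂ) {f : R[X]}
    (hf : f.Monic) (hroots : ∀ z ∈ (f.map φ).roots, ‖z‖ ≤ a) {s : ℕ → R} (hs : Sol f s) {U : ℝ}
    (hU : 0 ≤ U) (hs0 : ∀ i < f.natDegree, ‖φ (s i)‖ ≤ U) (n : ℕ) :
    ‖φ (s n)‖ ≤ U * 2 ^ f.natDegree * (2 * a) ^ n := by
  have hm : (f.map φ).Monic := hf.map φ
  have hspl : (f.map φ).Splits := IsAlgClosed.splits _
  have hcard : (f.map φ).roots.card = f.natDegree := by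
    rw [← hspl.natDegree_eq_card_roots, hf.natDegree_map]
  have hprod : ((f.map φ).roots.map (fun z => X - C z)).prod = f.map φ := by
    have := hspl.eq_prod_roots
    rw [hm.leadingCoeff, C_1, one_mul] at this
    exact this.symm
  have := growth ha (f.map φ).roots hroots (fun n => φ (s n)) U hU
    (fun i hi => hs0 i (by rwa [hcard] at hi))
    (by rw [hprod]; exact (sol_iff _ _).1 (hs.map φ)) n
  rwa [hcard] at this

end Pool.Agent.Work.MP_8d13b5_lc.Pd
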