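import Pool.Agent.Work.MP_8d13b5_lc.Pd.Data

set_option autoImplicit false

/-! The families `β = N + i`, `β' = N - i`. -/

namespace Pool.Agent.Work.MP_8d13b5_lc.Pd

open Polynomial Finset NumberField

/-- the characteristic polynomial `X ^ d - c_1 X ^ (d - 1) - ... - c_d` -/
noncomputable def chi (c : List ℤ) : ℤ[X] :=
  X ^ c.length - ∑ j ∈ range c.length, C (c.getD j 0) * X ^ (c.length - 1 - j)

theorem chi_degree (c : List ℤ) :
    (∑ j ∈ range c.length, C (c.getD j 0) * X ^ (c.length - 1 - j) : ℤ[X]).degree <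
      c.length := by
  by_cases hc : c.length = 0
  · rw [hc, range_zero, sum_empty, degree_zero]
    exact WithBot.bot_lt_coe _
  refine lt_of_le_of_lt (degree_sum_le _ _) ?_
  rw [Finset.sup_lt_iff (WithBot.bot_lt_coe _)]
  intro j hj
  refine lt_of_le_of_lt (degree_C_mul_X_pow_le _ _) ?_
  rw [mem_range] at hj
  exact_mod_cast (by omega : c.length - 1 - j < c.length)

theorem chi_monic (c : List ℤ) : (chi c).Monic := monic_X_pow_sub (chi_degree c)

theorem chi_natDegree (c : List ℤ) : (chi c).natDegree = c.length := by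
  unfold chi
  have h : (X ^ c.length - ∑ j ∈ range c.length, C (c.getD j 0) * X ^ (c.length - 1 - j) :
      ℤ[X]).degree = c.length := by
    rw [degree_sub_eq_left_of_degree_lt (by rw [degree_X_pow]; exact chi_degree c), degree_X_pow]
  exact natDegree_eq_of_degree_eq_some h

theorem aeval_chi {A : Type*} [Ring A] [Algebra ℤ A] (c : List ℤ) (x : A) :
    aeval x (chi c) = x ^ c.length -
      ∑ j ∈ range c.length, algebraMap ℤ A (c.getD j 0) * x ^ (c.length - 1 - j) := by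
  unfold chi
  rw [map_sub, map_pow, aeval_X, map_sum]
  congr 1
  exact sum_congr rfl fun j _ => by rw [map_mul, aeval_C, map_pow, aeval_X]

theorem chi_root (c : List ℤ) (z : ℂ) : aeval z (chi c) = 0 ↔ IsRt c z := by
  rw [aeval_chi, IsRt, sub_eq_zero]
  simp

theorem chi_sol {p : List ℤ × List ℤ} {u : ℕ → ℤ} (hu : IsSeq p u) : Sol (chi p.1) u := by
  obtain ⟨_, h2, _, _, h5⟩ := hu
  rw [sol_iff, aeval_chi]
  funext n
  rw [LinearMap.sub_apply, Pi.sub_apply, shf_pow, LinearMap.sum_apply, Finset.sum_apply, h5 n,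
    Pi.zero_apply, sub_eq_zero]
  refine sum_congr rfl fun j hj => ?_
  rw [mem_range] at hj
  rw [Module.End.mul_apply]
  show _ = p.1.getD j 0 * (((shf ℤ) ^ (p.1.length - 1 - j)) u) n
  rw [shf_pow]
  congr 2
  omega

theorem chi_coeff_zero {c : List ℤ} (hc : 1 ≤ c.length) :
    (chi c).coeff 0 = -c.getD (c.length - 1) 0 := by
  rw [coeff_zero_eq_eval_zero, chi, eval_sub, eval_pow, eval_X, zero_pow (by omega), zero_sub,
    eval_finsetSum, sum_eq_single (c.length - 1)]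
  · simp
  · intro j hj hne
    rw [mem_range] at hj
    rw [eval_mul, eval_pow, eval_X, zero_pow (by omega), mul_zero]
  · intro h
    rw [mem_range] at h
    omega

section gauss

/-- the fourth cyclotomic field -/
abbrev Qi : Type := CyclotomicField 4 ℚ

instance : IsCyclotomicExtension {4} ℚ Qi := CyclotomicField.isCyclotomicExtension 4 ℚ

theorem zeta_sq : (IsCyclotomicExtension.zeta 4 ℚ Qi) ^ 2 = -1 := by
  have h := IsCyclotomicExtension.zeta_spec 4 ℚ Qi
  have h1 : (IsCyclotomicExtension.zeta 4 ℚ Qi) ^ 4 = 1 := h.pow_eq_one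
  have h2 : (IsCyclotomicExtension.zeta 4 ℚ Qi) ^ 2 ≠ 1 := h.pow_ne_one_of_pos_of_lt
    (by norm_num) (by norm_num)
  have h3 : ((IsCyclotomicExtension.zeta 4 ℚ Qi) ^ 2 - 1) *
      ((IsCyclotomicExtension.zeta 4 ℚ Qi) ^ 2 + 1) = 0 := by
    linear_combination h1
  exact eq_neg_of_add_eq_zero_left ((mul_eq_zero.1 h3).resolve_left (sub_ne_zero.2 h2))

/-- the imaginary unit as an algebraic integer -/
noncomputable def im : 𝓞 Qi := (IsCyclotomicExtension.zeta_spec 4 ℚ Qi).toInteger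

theorem im_sq : (im : Qi) ^ 2 = -1 := zeta_sq

theorem finrank_Qi : Module.finrank ℚ Qi = 2 := by
  rw [IsCyclotomicExtension.finrank Qi (cyclotomic.irreducible_rat (by norm_num : 0 < 4))]
  decide

theorem emb_im (φ : Qi →+* ℂ) : φ im = Complex.I ∨ φ im = -Complex.I := by
  have h1 : φ im ^ 2 = -1 := by rw [← map_pow, im_sq, map_neg, map_one]
  have h2 : (φ im - Complex.I) * (φ im + Complex.I) = 0 := by
    have := Complex.I_sq
    linear_combination h1 - this
  rcases mul_eq_zero.1 h2 with h | h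
  · exact Or.inl (sub_eq_zero.1 h)
  · exact Or.inr (eq_neg_of_add_eq_zero_left h)

theorem exists_emb : ∃ φ : Qi →+* ℂ, φ im = Complex.I := by
  obtain ⟨φ⟩ : Nonempty (Qi →+* ℂ) := inferInstance
  rcases emb_im φ with h | h
  · exact ⟨φ, h⟩
  · refine ⟨(starRingEnd ℂ).comp φ, ?_⟩
    show (starRingEnd ℂ) (φ im) = _
    rw [h, map_neg, Complex.conj_I, neg_neg]

theorem norm_conj (x y : ℤ) :
    ‖(x : ℂ) - y * Complex.I‖ = ‖(x : ℂ) + y * Complex.I‖ := by
  have h : (x : ℂ) - y * Complex.I = (starRingEnd ℂ) ((x : ℂ) + y * Complex.I) := by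
    rw [map_add, map_mul, Complex.conj_I, map_intCast, map_intCast]
    ring
  rw [h, Complex.norm_conj]

end gauss

section gauss2

theorem im_ne : (im : 𝓞 Qi) ≠ 0 := by
  intro h
  have := im_sq
  rw [h] at this
  simp at this

theorem beta_norm (x y : ℤ) (φ : Qi →+* ℂ) :
    ‖φ ((x : 𝓞 Qi) + y * im : 𝓞 Qi)‖ = ‖(x : ℂ) + y * Complex.I‖ ∧
      ‖φ ((x : 𝓞 Qi) - y * im : 𝓞 Qi)‖ = ‖(x : ℂ) + y * Complex.I‖ := by
  have e1 : φ (((x : 𝓞 Qi) + y * im : 𝓞 Qi) : Qi) = (x : ℂ) + y * φ im := by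
    show φ (algebraMap (𝓞 Qi) Qi ((x : 𝓞 Qi) + y * im)) = _
    rw [map_add, map_mul, map_intCast, map_intCast, map_add, map_mul, map_intCast, map_intCast]
  have e2 : φ (((x : 𝓞 Qi) - y * im : 𝓞 Qi) : Qi) = (x : ℂ) - y * φ im := by
    show φ (algebraMap (𝓞 Qi) Qi ((x : 𝓞 Qi) - y * im)) = _
    rw [map_sub, map_mul, map_intCast, map_intCast, map_sub, map_mul, map_intCast, map_intCast]
  rw [e1, e2]
  rcases emb_im φ with h | h
  · rw [h]
    exact ⟨rfl, norm_conj x y⟩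
  · rw [h, mul_neg, sub_neg_eq_add, ← sub_eq_add_neg]
    exact ⟨norm_conj x y, rfl⟩

theorem e_norm (z : ℤ) (φ : Qi →+* ℂ) :
    ‖φ ((-(2 * z * im) : 𝓞 Qi) : Qi)‖ = 2 * |(z : ℝ)| := by
  have e1 : φ ((-(2 * z * im) : 𝓞 Qi) : Qi) = -(2 * z * φ im) := by
    show φ (algebraMap (𝓞 Qi) Qi (-(2 * z * im))) = _
    rw [map_neg, map_mul, map_mul, map_ofNat, map_intCast, map_neg, map_mul, map_mul, map_ofNat,
      map_intCast]
  rw [e1, norm_neg, norm_mul, norm_mul, Complex.norm_intCast]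
  rcases emb_im φ with h | h
  · rw [h]; simp
  · rw [h]; simp

theorem gauss_fam {f : ℤ[X]} (hf : f.Monic) (hf0 : f.coeff 0 ≠ 0)
    {a : ℝ} (ha1 : 1 ≤ a) (ha : ∀ z : ℂ, aeval z f = 0 → ‖z‖ ≤ a) {x y z D ρ : ℤ} {l m : ℕ}
    (hl : 1 ≤ l) (hlm : l < 2 * m) (hy : y = D ^ m * z) (hy0 : y ≠ 0) (hρ : ρ ≠ 0)
    (hD : IsCoprime D x)
    (hc1 : (32 * a) ^ (2 * m) * (2 * |(z : ℝ)|) ^ (2 * l) ≤ ‖(x : ℂ) + y * Complex.I‖ ^ l)
    (hc2 : (128 * |(ρ : ℝ)|) ^ (2 * m) ≤ ‖(x : ℂ) + y * Complex.I‖ ^ (2 * m - l)) :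
    Fam Qi (f.map (algebraMap ℤ (𝓞 Qi))) (f.map (algebraMap ℤ (𝓞 Qi))) (X - C (ρ : 𝓞 Qi))
      ((x : 𝓞 Qi) + y * im) ((x : 𝓞 Qi) - y * im) D (-(2 * z * im)) l m (fun _ => a)
      (fun _ => |(ρ : ℝ)|) := by
  have hr1 : (1 : ℝ) ≤ |(ρ : ℝ)| := by exact_mod_cast Int.one_le_abs hρ
  have hyO : (y : 𝓞 Qi) = D ^ m * z := by rw [hy]; push_cast; ring
  have hm : m ≠ 0 := by omega
  refine
    { monic := ⟨hf.map _, hf.map _, monic_X_sub_C _⟩
      coeff := ⟨?_, ?_, ?_⟩
      exps := ⟨hl, hlm⟩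
      ne := ?_
      diff := by rw [hyO]; ring
      coprime := ?_
      roots := fun φ => ⟨ha1, hr1, fun z hz => ha z ?_, fun z hz => ?_⟩
      large := ?_ }
  · rw [coeff_map]
    simpa using hf0
  · rw [coeff_map]
    simpa using hf0
  · rw [coeff_sub, coeff_X_zero, coeff_C_zero, zero_sub, neg_ne_zero]
    exact_mod_cast hρ
  · intro h
    have h1 : (2 : 𝓞 Qi) * (y * im) = 0 := by linear_combination h
    rcases mul_eq_zero.1 h1 with h2 | h2
    · exact absurd h2 (by norm_num)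
    · rcases mul_eq_zero.1 h2 with h3 | h3
      · exact hy0 (by exact_mod_cast h3)
      · exact im_ne h3
  · obtain ⟨A, B, hAB⟩ := hD
    obtain ⟨k, rfl⟩ : ∃ k, m = k + 1 := ⟨m - 1, by omega⟩
    have h1 : (A : 𝓞 Qi) * D + B * x = 1 := by exact_mod_cast congrArg (Int.cast (R := 𝓞 Qi)) hAB
    refine ⟨(A : 𝓞 Qi) + B * D ^ k * z * im, B, ?_⟩
    rw [hyO]
    linear_combination h1
  · rw [eval₂_map] at hz
    have h4 : (res φ).comp (algebraMap ℤ (𝓞 Qi)) = algebraMap ℤ ℂ := RingHom.ext_int _ _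
    rw [h4] at hz
    exact hz
  · rw [eval₂_sub, eval₂_X, eval₂_C, map_intCast, sub_eq_zero] at hz
    rw [hz, Complex.norm_intCast]
  · apply prod_le_prod
    · intro φ _
      exact le_max_of_le_right (by positivity)
    intro φ _
    obtain ⟨b1, b2⟩ := beta_norm x y φ
    rw [e_norm, b1, b2, max_self]
    set b := ‖(x : ℂ) + y * Complex.I‖ with hb
    have hb0 : 0 ≤ b := norm_nonneg _
    have hsplit : b ^ (2 * m) = b ^ l * b ^ (2 * m - l) := by
      rw [← pow_add]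
      congr 1
      omega
    rw [hsplit]
    apply max_le
    · exact mul_le_mul_of_nonneg_right hc1 (by positivity)
    · rw [mul_comm (b ^ l)]
      exact mul_le_mul_of_nonneg_right hc2 (by positivity)

theorem scale_coeff_zero {A : Type*} [CommRing A] (f : A[X]) (β : A) :
    (f.scaleRoots β).coeff 0 = f.coeff 0 * β ^ f.natDegree := by
  rw [coeff_scaleRoots, Nat.sub_zero]

theorem sol_linear {A : Type*} [CommRing A] {x : A} {r : ℕ → A} (h : Sol (X - C x) r) (n : ℕ) :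
    r n = x ^ n * r 0 := by
  nontriviality A
  induction n with
  | zero => simp
  | succ n ih =>
    have h1 := h n
    rw [natDegree_X_sub_C, sum_range_succ, sum_range_one, coeff_sub, coeff_X_zero, coeff_C_zero,
      coeff_sub, coeff_X_one, coeff_C, if_neg one_ne_zero, zero_sub, sub_zero, one_mul,
      add_zero] at h1
    have h2 : r (n + 1) = x * r n := by linear_combination h1
    rw [h2, ih]
    ring

theorem scale_X_sub_C {A : Type*} [CommRing A] [Nontrivial A] (x d : A) :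
    (X - C x).scaleRoots d = X - C (d * x) := by
  ext i
  rw [coeff_scaleRoots, natDegree_X_sub_C]
  rcases i with _ | _ | i
  · simp [mul_comm]
  · simp
  · simp [coeff_X]

theorem gauss {f : ℤ[X]} (hf : f.Monic) (hf0 : f.coeff 0 ≠ 0) (hdeg : 1 ≤ f.natDegree)
    {a : ℝ} (ha1 : 1 ≤ a) (ha : ∀ z : ℂ, aeval z f = 0 → ‖z‖ ≤ a) {x y z D ρ : ℤ} {l m : ℕ}
    (hl : 1 ≤ l) (hlm : l < 2 * m) (hyz : y = D ^ m * z) (hy0 : y ≠ 0) (hρ0 : ρ ≠ 0)
    (hD : IsCoprime D x)
    (hc1 : (32 * a) ^ (2 * m) * (2 * |(z : ℝ)|) ^ (2 * l) ≤ ‖(x : ℂ) + y * Complex.I‖ ^ l)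
    (hc2 : (128 * |(ρ : ℝ)|) ^ (2 * m) ≤ ‖(x : ℂ) + y * Complex.I‖ ^ (2 * m - l))
    {p : List ℤ × List ℤ} {u : ℕ → ℤ} (hu : IsSeq p u)
    (hχ : (chi p.1).map (algebraMap ℤ ℂ) =
      (f.map (algebraMap ℤ ℂ)).scaleRoots (x + y * Complex.I) *
        (f.map (algebraMap ℤ ℂ)).scaleRoots (x - y * Complex.I) * (X - C ((D : ℂ) ^ l * ρ)))
    (hnot : ¬ Sol ((f.map (algebraMap ℤ ℂ)).scaleRoots (x + y * Complex.I) *
      (f.map (algebraMap ℤ ℂ)).scaleRoots (x - y * Complex.I)) (fun n => (u n : ℂ))) {n : ℕ}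
    (hn : 100 * p.1.length ^ 3 * lsize p < n) : u n ≠ 0 := by
  intro h0
  have H := gauss_fam hf hf0 ha1 ha hl hlm hyz hy0 hρ0 hD hc1 hc2
  have hm : m ≠ 0 := by omega
  set f' : (𝓞 Qi)[X] := f.map (algebraMap ℤ (𝓞 Qi)) with hf'
  set q : (𝓞 Qi)[X] := X - C (ρ : 𝓞 Qi) with hq
  set β : 𝓞 Qi := (x : 𝓞 Qi) + y * im with hβ
  set β' : 𝓞 Qi := (x : 𝓞 Qi) - y * im with hβ'
  have hf'm : f'.Monic := hf.map _
  have hqm : q.Monic := monic_X_sub_C _
  obtain ⟨φ₀, hφ₀⟩ := exists_emb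
  have hcomp : ∀ φ : Qi →+* ℂ, (res φ).comp (algebraMap ℤ (𝓞 Qi)) = algebraMap ℤ ℂ :=
    fun φ => RingHom.ext_int _ _
  have him : res φ₀ im = Complex.I := hφ₀
  have hβφ : res φ₀ β = x + y * Complex.I := by
    rw [hβ, map_add, map_mul, map_intCast, map_intCast, him]
  have hβ'φ : res φ₀ β' = x - y * Complex.I := by
    rw [hβ', map_sub, map_mul, map_intCast, map_intCast, him]
  have hP12 : (f'.scaleRoots β * f'.scaleRoots β').map (res φ₀) =
      (f.map (algebraMap ℤ ℂ)).scaleRoots (x + y * Complex.I) *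
        (f.map (algebraMap ℤ ℂ)).scaleRoots (x - y * Complex.I) := by
    rw [Polynomial.map_mul, map_scale _ hf'm, map_scale _ hf'm, hβφ, hβ'φ, hf', Polynomial.map_map,
      hcomp]
  have hP : (chi p.1).map (algebraMap ℤ (𝓞 Qi)) =
      f'.scaleRoots β * f'.scaleRoots β' * q.scaleRoots ((D : 𝓞 Qi) ^ l) := by
    apply Polynomial.map_injective (res φ₀) (res_inj φ₀)
    have hqr : (q.scaleRoots ((D : 𝓞 Qi) ^ l)).map (res φ₀) = X - C ((D : ℂ) ^ l * ρ) := by
      rw [hq, scale_X_sub_C, Polynomial.map_sub, map_X, Polynomial.map_C]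
      congr 2
      rw [map_mul, map_pow, map_intCast, map_intCast]
    rw [Polynomial.map_map, hcomp, hχ, Polynomial.map_mul, hP12, hqr]
  -- the parts
  have hsol : Sol (((f'.scaleRoots β * f'.scaleRoots β' *
      q.scaleRoots ((D : 𝓞 Qi) ^ l))).map (algebraMap (𝓞 Qi) Qi)) (fun n => (u n : Qi)) := by
    have h1 := (chi_sol hu).map (Int.castRingHom Qi)
    rw [← hP, Polynomial.map_map]
    have h2 : (algebraMap (𝓞 Qi) Qi).comp (algebraMap ℤ (𝓞 Qi)) = Int.castRingHom Qi :=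
      RingHom.ext_int _ _
    rw [h2]
    exact h1
  obtain ⟨s, t, r, hs, ht, hr, hy⟩ := H.parts hsol
  -- sizes
  have hd1 := hu.2.1
  set b := ‖(x : ℂ) + y * Complex.I‖ with hb
  have hb0 : 0 ≤ b := norm_nonneg _
  have hρ1 : (1 : ℝ) ≤ |(ρ : ℝ)| := by exact_mod_cast Int.one_le_abs hρ0
  have hD0 : D ≠ 0 := by
    rintro rfl
    apply hy0
    rw [hyz, zero_pow hm, zero_mul]
  have hb2 : 2 ≤ b := by
    by_contra hcon
    have h1 : b ^ (2 * m - l) ≤ 2 ^ (2 * m) := by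
      refine (pow_le_pow_left₀ hb0 (not_le.1 hcon).le _).trans ?_
      exact pow_le_pow_right₀ (by norm_num) (by omega)
    have h2 : (128 : ℝ) ^ (2 * m) ≤ (128 * |(ρ : ℝ)|) ^ (2 * m) :=
      pow_le_pow_left₀ (by norm_num) (by linarith) _
    have h3 : (2 : ℝ) ^ (2 * m) < 128 ^ (2 * m) :=
      pow_lt_pow_left₀ (by norm_num) (by norm_num) (by omega)
    linarith
  have hsz : b ^ 2 ≤ 2 ^ lsize p := by
    have h1 := congrArg (fun P : ℂ[X] => ‖P.coeff 0‖) hχ
    rw [coeff_map, chi_coeff_zero hd1, mul_coeff_zero, mul_coeff_zero, scale_coeff_zero,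
      scale_coeff_zero, hf.natDegree_map, coeff_map, coeff_sub, coeff_X_zero, coeff_C_zero,
      zero_sub, norm_mul, norm_mul, norm_mul, norm_mul, norm_pow, norm_pow, norm_neg, norm_conj,
      ← hb] at h1
    have hf1 : (1 : ℝ) ≤ ‖(algebraMap ℤ ℂ) (f.coeff 0)‖ := by
      rw [eq_intCast, Complex.norm_intCast]
      exact_mod_cast Int.one_le_abs hf0
    have hr1 : (1 : ℝ) ≤ ‖(D : ℂ) ^ l * ρ‖ := by
      have e1 : (D : ℂ) ^ l * ρ = ((D ^ l * ρ : ℤ) : ℂ) := by push_cast; ring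
      rw [e1, Complex.norm_intCast]
      exact_mod_cast Int.one_le_abs (mul_ne_zero (pow_ne_zero _ hD0) hρ0)
    have hxm : b ≤ b ^ f.natDegree := le_self_pow₀ (by linarith) (by omega)
    have h4 : b ^ 2 ≤ ‖(algebraMap ℤ ℂ) (f.coeff 0)‖ * b ^ f.natDegree *
        (‖(algebraMap ℤ ℂ) (f.coeff 0)‖ * b ^ f.natDegree) * ‖(D : ℂ) ^ l * ρ‖ := by
      have h5 : b ≤ ‖(algebraMap ℤ ℂ) (f.coeff 0)‖ * b ^ f.natDegree :=
        hxm.trans (le_mul_of_one_le_left (by positivity) hf1)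
      have h6 : b ^ 2 ≤ ‖(algebraMap ℤ ℂ) (f.coeff 0)‖ * b ^ f.natDegree *
          (‖(algebraMap ℤ ℂ) (f.coeff 0)‖ * b ^ f.natDegree) := by
        rw [sq]
        exact mul_le_mul h5 h5 hb0 (by positivity)
      exact h6.trans (le_mul_of_one_le_right (by positivity) hr1)
    refine h4.trans ?_
    rw [← h1, map_neg, norm_neg, eq_intCast, Complex.norm_intCast]
    have h7 : |((p.1.getD (p.1.length - 1) 0 : ℤ) : ℝ)| =
        ((p.1.getD (p.1.length - 1) 0).natAbs : ℝ) := by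
      rw [Nat.cast_natAbs, Int.cast_abs]
    rw [h7]
    have h8 : (p.1.getD (p.1.length - 1) 0).natAbs ≤ 2 ^ lsize p := by
      refine (natAbs_getD_le _ _).trans (le_trans ?_ (size_le p))
      unfold size
      omega
    exact_mod_cast h8
  have hbb : b ≤ 2 ^ lsize p := by nlinarith
  have h2l : (1 : ℝ) ≤ 2 ^ lsize p := one_le_pow₀ (by norm_num)
  have hzy : |(z : ℝ)| ≤ b := by
    have h1 : |(z : ℝ)| ≤ |(y : ℝ)| := by
      have h2 : |y| = |D ^ m| * |z| := by rw [hyz, abs_mul]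
      have h3 : 1 ≤ |D ^ m| := Int.one_le_abs (pow_ne_zero _ hD0)
      have h4 : |z| ≤ |y| := by
        rw [h2]
        exact le_mul_of_one_le_left (abs_nonneg _) h3
      exact_mod_cast h4
    refine h1.trans ?_
    have h2 : ((x : ℂ) + y * Complex.I).im = y := by simp
    have h3 := Complex.abs_im_le_norm ((x : ℂ) + y * Complex.I)
    rw [h2] at h3
    exact h3
  have hfin := data_bound H (c := 1) (A := lsize p) (fun φ => ?_) hu (T := 1) (j := 0) le_rfl
    (by norm_num) ?_ ?_ hs ht hr ?_ (n := n) ?_ (ρ := 0) ?_ ?_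
  · -- conclusion
    have hrn : r n = 0 := by
      have := hfin.2.2
      rw [this]
      simp
    have hr' : Sol (X - C (ρ : Qi)) r := by
      have : q.map (algebraMap (𝓞 Qi) Qi) = X - C (ρ : Qi) := by
        rw [hq, Polynomial.map_sub, map_X, Polynomial.map_C]
        congr 2
      rw [← this]
      exact hr
    have hr0 : r 0 = 0 := by
      rw [sol_linear hr' n] at hrn
      exact (mul_eq_zero.1 hrn).resolve_left (pow_ne_zero _ (by exact_mod_cast hρ0))
    have hrz : ∀ k, r k = 0 := fun k => by rw [sol_linear hr' k, hr0, mul_zero]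
    apply hnot
    have h1 : Sol ((f'.scaleRoots β * f'.scaleRoots β').map (algebraMap (𝓞 Qi) Qi))
        (fun n => (u n : Qi)) := by
      have e1 : (fun n => (u n : Qi)) = fun n => (β : Qi) ^ n * s n + (β' : Qi) ^ n * t n := by
        funext k
        rw [hy k, hrz k, mul_zero, add_zero]
      rw [e1, Polynomial.map_mul, map_scale _ hf'm, map_scale _ hf'm]
      exact ((hs.scale _).mul_right _).add ((ht.scale _).mul_left _)
    have h2 := h1.map φ₀
    rw [Polynomial.map_map] at h2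
    have h3 : φ₀.comp (algebraMap (𝓞 Qi) Qi) = res φ₀ := rfl
    rw [h3, hP12] at h2
    convert h2 using 1
    funext k
    rw [map_intCast]
  · obtain ⟨b1, b2⟩ := beta_norm x y φ
    refine ⟨?_, b1.le.trans hbb, b2.le.trans hbb, ?_⟩
    · simp only [map_one, norm_one]
      exact h2l
    · rw [e_norm]
      nlinarith
  · have h1 := congrArg natDegree hP
    rw [(chi_monic p.1).natDegree_map, chi_natDegree,
      ((monic_scaleRoots hf'm β).mul (monic_scaleRoots hf'm β')).natDegree_mul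
      (monic_scaleRoots hqm _), (monic_scaleRoots hf'm β).natDegree_mul
      (monic_scaleRoots hf'm β'), natDegree_scaleRoots, natDegree_scaleRoots,
      natDegree_scaleRoots] at h1
    exact h1.ge
  · intro φ z hz
    refine ⟨z, ?_, by simp⟩
    rw [← hP, eval₂_map, hcomp] at hz
    exact (chi_root _ _).1 hz
  · intro k
    have := hy k
    simp only [map_one, one_pow, one_mul, zero_add]
    exact this
  · rw [finrank_Qi]
    refine lt_of_le_of_lt (le_of_eq ?_) hn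
    ring
  · intro φ
    simp
  · simp [h0]

end gauss2

end Pool.Agent.Work.MP_8d13b5_lc.Pd
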