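import Pool.Agent.Work.MP_8d13b5_lc.Bd.B05

set_option autoImplicit false

/-! Number fields: norms and the final bound. -/

namespace Pool.Agent.Work.MP_8d13b5_lc.Pd

open Polynomial Finset NumberField

theorem norm_pos' {K : Type*} [Field K] (x : 𝓞 K) (hx : x ≠ 0) (φ : K →+* ℂ) : 0 < ‖φ x‖ := by
  rw [norm_pos_iff]
  intro h
  apply hx
  have : (x : K) = 0 := by rwa [map_eq_zero] at h
  exact (map_eq_zero_iff (algebraMap (𝓞 K) K) RingOfIntegers.coe_injective).1 this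

/-- restriction of an embedding to the ring of integers -/
def res {K : Type*} [Field K] (φ : K →+* ℂ) : 𝓞 K →+* ℂ := φ.comp (algebraMap (𝓞 K) K)

theorem res_apply {K : Type*} [Field K] (φ : K →+* ℂ) (x : 𝓞 K) : res φ x = φ x := rfl

theorem res_inj {K : Type*} [Field K] (φ : K →+* ℂ) : Function.Injective (res φ) :=
  φ.injective.comp (RingOfIntegers.coe_injective)

section field

variable {K : Type*} [Field K] [NumberField K]

theorem one_le_prod (x : 𝓞 K) (hx : x ≠ 0) : 1 ≤ ∏ φ : K →+* ℂ, ‖φ x‖ := by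
  have h1 : ∏ φ : K →+* ℂ, ‖φ x‖ = ‖algebraMap ℚ ℂ (Algebra.norm ℚ (x : K))‖ := by
    rw [Algebra.norm_eq_prod_embeddings ℚ ℂ (x : K), norm_prod]
    exact Fintype.prod_equiv (RingHom.equivRatAlgHom K ℂ) _ _
      fun φ => by simp [RingHom.equivRatAlgHom_apply]
  have h2 : Algebra.norm ℤ x ≠ 0 := Algebra.norm_ne_zero_iff.2 hx
  rw [h1, ← Algebra.coe_norm_int]
  have h3 : ‖algebraMap ℚ ℂ ((Algebra.norm ℤ x : ℤ) : ℚ)‖ = |((Algebra.norm ℤ x : ℤ) : ℝ)| := by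
    rw [eq_ratCast, Rat.cast_intCast, Complex.norm_intCast]
  rw [h3]
  exact_mod_cast Int.one_le_abs h2

theorem card_emb : Fintype.card (K →+* ℂ) = Module.finrank ℚ K := Embeddings.card K ℂ

/-- an element with all conjugates at most `E` has no conjugate below `E ^ (-[K : ℚ])` -/
theorem lower (x : 𝓞 K) (hx : x ≠ 0) {E : ℝ} (hE1 : 1 ≤ E) (hE : ∀ φ : K →+* ℂ, ‖φ x‖ ≤ E)
    (φ : K →+* ℂ) : 1 ≤ E ^ Module.finrank ℚ K * ‖φ x‖ := by
  classical
  refine (one_le_prod x hx).trans ?_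
  rw [← prod_erase_mul univ (fun φ : K →+* ℂ => ‖φ x‖) (mem_univ φ)]
  apply mul_le_mul_of_nonneg_right _ (norm_nonneg _)
  calc ∏ φ' ∈ univ.erase φ, ‖φ' x‖ ≤ ∏ _φ' ∈ univ.erase φ, E :=
        prod_le_prod (fun _ _ => norm_nonneg _) (fun φ' _ => hE φ')
    _ = E ^ (univ.erase φ).card := by rw [prod_const]
    _ ≤ E ^ Module.finrank ℚ K := by
        apply pow_le_pow_right₀ hE1
        rw [← card_emb]
        exact card_le_univ _

/-- **Padé families.** The characteristic roots are `β α_i` (`α_i` the roots of `f`), `β' γ_i`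
(`γ_i` the roots of `g`) and `D ^ l δ_i` (`δ_i` the roots of `q`), where `β' = β + D ^ m e` and, in
the sense of the last inequality, `β` and `β'` are large in comparison with `e`, the `α_i` and
the `δ_i`. -/
structure Fam (K : Type*) [Field K] [NumberField K] (f g q : (𝓞 K)[X]) (β β' D e : 𝓞 K)
    (l m : ℕ) (a w : (K →+* ℂ) → ℝ) : Prop where
  monic : f.Monic ∧ g.Monic ∧ q.Monic
  coeff : f.coeff 0 ≠ 0 ∧ g.coeff 0 ≠ 0 ∧ q.coeff 0 ≠ 0
  exps : 1 ≤ l ∧ l < 2 * m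
  ne : β ≠ β'
  diff : β' - β = D ^ m * e
  coprime : IsCoprime D β'
  roots : ∀ φ, 1 ≤ a φ ∧ 1 ≤ w φ ∧ (∀ z : ℂ, f.eval₂ (res φ) z = 0 → ‖z‖ ≤ a φ) ∧
      ∀ z : ℂ, q.eval₂ (res φ) z = 0 → ‖z‖ ≤ w φ
  large : ∏ φ : K →+* ℂ,
      max ((32 * a φ) ^ (2 * m) * ‖φ e‖ ^ (2 * l) * (max ‖φ β‖ ‖φ β'‖) ^ (2 * m - l))
        ((128 * w φ) ^ (2 * m) * (max ‖φ β‖ ‖φ β'‖) ^ l) ≤ ∏ φ : K →+* ℂ, ‖φ β'‖ ^ (2 * m)

/-- the final inequality -/
theorem final_num {N k L : ℕ} (hN : 1 ≤ N) (hk : 1 ≤ k) (hL : 1 ≤ L) {n : ℕ}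
    (hn : 25 * N ^ 2 * k * L < n) :
    16 * ((N * (N.factorial * (((2 * (((2 : ℝ) ^ L) ^ k) ^ 2) ^ 2) ^ N * 2 ^ N *
      (2 * (2 : ℝ) ^ L) ^ N) ^ N * 2 ^ L)) * 2 ^ N) * (((2 : ℝ) ^ L) ^ k) ^ 8 < 2 ^ n := by
  have hLk : 1 ≤ L * k := Nat.one_le_iff_ne_zero.2 (by positivity)
  have hG : ((2 : ℝ) ^ L) ^ k = 2 ^ (L * k) := by rw [pow_mul]
  rw [hG]
  have hX : (((2 * ((2 : ℝ) ^ (L * k)) ^ 2) ^ 2) ^ N * 2 ^ N * (2 * (2 : ℝ) ^ L) ^ N) ^ N ≤
      2 ^ (9 * (L * k) * N ^ 2) := by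
    have e1 : (((2 * ((2 : ℝ) ^ (L * k)) ^ 2) ^ 2) ^ N * 2 ^ N * (2 * (2 : ℝ) ^ L) ^ N) ^ N =
        2 ^ ((((1 + L * k * 2) * 2) * N + N + (1 + L) * N) * N) := by
      have e2 : 2 * ((2 : ℝ) ^ (L * k)) ^ 2 = 2 ^ (1 + L * k * 2) := by
        rw [← pow_mul, pow_add, pow_one]
      have e3 : 2 * (2 : ℝ) ^ L = 2 ^ (1 + L) := by rw [pow_add, pow_one]
      rw [e2, e3, ← pow_mul, ← pow_mul, ← pow_mul, ← pow_add, ← pow_add, ← pow_mul,
        mul_assoc (1 + L * k * 2) 2 N]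
    rw [e1]
    apply pow_le_pow_right₀ (by norm_num)
    have h1 : L ≤ L * k := Nat.le_mul_of_pos_right _ hk
    have h2 : ((1 + L * k * 2) * 2) * N + N + (1 + L) * N ≤ 9 * (L * k) * N := by nlinarith
    calc (((1 + L * k * 2) * 2) * N + N + (1 + L) * N) * N ≤ 9 * (L * k) * N * N :=
          Nat.mul_le_mul_right _ h2
      _ = 9 * (L * k) * N ^ 2 := by ring
  have hNN : (N : ℝ) ≤ 2 ^ N := by exact_mod_cast (Nat.lt_two_pow_self (n := N)).le
  have hNf : (N.factorial : ℝ) ≤ 2 ^ N ^ 2 := by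
    have h1 : N.factorial ≤ N ^ N := Nat.factorial_le_pow N
    have h2 : N ^ N ≤ (2 ^ N) ^ N := Nat.pow_le_pow_left (Nat.lt_two_pow_self (n := N)).le N
    have h3 : (2 ^ N) ^ N = 2 ^ N ^ 2 := by rw [← pow_mul, sq]
    exact_mod_cast h1.trans (h2.trans h3.le)
  have hfin : 16 * ((N * (N.factorial * (((2 * ((2 : ℝ) ^ (L * k)) ^ 2) ^ 2) ^ N * 2 ^ N *
      (2 * (2 : ℝ) ^ L) ^ N) ^ N * 2 ^ L)) * 2 ^ N) * ((2 : ℝ) ^ (L * k)) ^ 8 ≤
      16 * ((2 ^ N * (2 ^ N ^ 2 * 2 ^ (9 * (L * k) * N ^ 2) * 2 ^ L)) * 2 ^ N) *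
        ((2 : ℝ) ^ (L * k)) ^ 8 := by
    apply mul_le_mul_of_nonneg_right _ (by positivity)
    apply mul_le_mul_of_nonneg_left _ (by norm_num)
    apply mul_le_mul_of_nonneg_right _ (by positivity)
    apply mul_le_mul hNN _ (by positivity) (by positivity)
    apply mul_le_mul_of_nonneg_right _ (by positivity)
    exact mul_le_mul hNf hX (by positivity) (by positivity)
  refine hfin.trans_lt ?_
  have e1 : (16 : ℝ) * ((2 ^ N * (2 ^ N ^ 2 * 2 ^ (9 * (L * k) * N ^ 2) * 2 ^ L)) * 2 ^ N) *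
        ((2 : ℝ) ^ (L * k)) ^ 8 =
      2 ^ (4 + (N + (N ^ 2 + 9 * (L * k) * N ^ 2 + L)) + N + L * k * 8) := by
    rw [pow_add, pow_add, pow_add, pow_add, pow_add, pow_add, ← pow_mul (2 : ℝ) (L * k) 8]
    ring
  rw [e1]
  apply pow_lt_pow_right₀ (by norm_num)
  refine lt_of_le_of_lt ?_ hn
  have hN2 : N ≤ N ^ 2 := by nlinarith
  have h1 : 1 ≤ L * k * N ^ 2 := Nat.one_le_iff_ne_zero.2 (by positivity)
  have h2 : N ^ 2 ≤ L * k * N ^ 2 := Nat.le_mul_of_pos_left _ (by positivity)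
  have h3 : L * k ≤ L * k * N ^ 2 := Nat.le_mul_of_pos_right _ (by positivity)
  have h4 : L ≤ L * k := Nat.le_mul_of_pos_right _ (by positivity)
  have h5 : 25 * N ^ 2 * k * L = 25 * (L * k * N ^ 2) := by ring
  have h6 : 9 * (L * k) * N ^ 2 = 9 * (L * k * N ^ 2) := by ring
  rw [h5, h6]
  omega

theorem exists_root {x : ℝ} (hx : 0 ≤ x) {n : ℕ} (hn : n ≠ 0) : ∃ z : ℝ, 0 ≤ z ∧ z ^ n = x :=
  ⟨x ^ ((n : ℝ)⁻¹), Real.rpow_nonneg hx _, Real.rpow_inv_natCast_pow hx hn⟩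

/-- the setup attached to a family -/
theorem Fam.setup {f g q : (𝓞 K)[X]} {β β' D e : 𝓞 K} {l m : ℕ} {a w : (K →+* ℂ) → ℝ}
    (H : Fam K f g q β β' D e l m a w)
    {L : ℕ} (hL : ∀ φ : K →+* ℂ, ‖φ β‖ ≤ 2 ^ L ∧ ‖φ β'‖ ≤ 2 ^ L ∧ ‖φ e‖ ≤ 2 ^ L) :
    ∃ Z : (K →+* ℂ) → ℝ, Setup (fun φ : K →+* ℂ => res φ) f g q β β' D e l m a w Z
      (((2 : ℝ) ^ L) ^ Module.finrank ℚ K) := by
  classical
  have haw := H.roots
  have hprod := H.large
  obtain ⟨hl, hlm⟩ := H.exps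
  have hm2 : 2 * m ≠ 0 := by omega
  set M : (K →+* ℂ) → ℝ := fun φ => max ‖φ β‖ ‖φ β'‖ with hM
  have hM0 : ∀ φ, 0 ≤ M φ := fun φ => (norm_nonneg _).trans (le_max_left _ _)
  have hx0 : ∀ φ : K →+* ℂ, 0 ≤ max ((32 * a φ) ^ (2 * m) * ‖φ e‖ ^ (2 * l) * M φ ^ (2 * m - l))
      ((128 * w φ) ^ (2 * m) * M φ ^ l) := by
    intro φ
    have := (haw φ).2.1
    have := hM0 φ
    exact le_max_of_le_right (by positivity)
  choose Z hZ0 hZ using fun φ => exists_root (hx0 φ) hm2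
  have he0 : e ≠ 0 := by
    intro h
    have := H.diff
    rw [h, mul_zero, sub_eq_zero] at this
    exact H.ne this.symm
  have hβ'0 : β' ≠ 0 := by
    intro h
    have hβ0 : β ≠ 0 := fun h' => H.ne (by rw [h, h'])
    have h1 : ∏ φ : K →+* ℂ, ‖φ β'‖ ^ (2 * m) = 0 := by
      obtain ⟨φ₀⟩ : Nonempty (K →+* ℂ) := inferInstance
      apply prod_eq_zero (mem_univ φ₀)
      rw [h]
      simp [hm2]
    rw [h1] at hprod
    refine absurd hprod (not_le.2 (prod_pos fun φ _ => ?_))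
    have := (haw φ).2.1
    have hp : 0 < M φ := (norm_pos' β hβ0 φ).trans_le (le_max_left _ _)
    exact lt_max_of_lt_right (by positivity)
  have h2L : (1 : ℝ) ≤ 2 ^ L := one_le_pow₀ (by norm_num)
  have hk : Module.finrank ℚ K ≠ 0 := Module.finrank_pos.ne'
  have hG : (2 : ℝ) ^ L ≤ ((2 : ℝ) ^ L) ^ Module.finrank ℚ K := le_self_pow₀ h2L hk
  refine ⟨Z, ?_⟩
  exact
    { loc :=
        { inj := fun φ => res_inj φ
          norm := fun x hx => one_le_prod x hx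
          h1 := fun φ => by linarith [(haw φ).1]
          ω1 := fun φ => by linarith [(haw φ).2.1]
          Z0 := hZ0
          G1 := one_le_pow₀ h2L
          βG := fun φ => (hL φ).1.trans hG
          β'G := fun φ => (hL φ).2.1.trans hG
          β'G' := fun φ => lower β' hβ'0 h2L (fun φ => (hL φ).2.1) φ
          eG := fun φ => (hL φ).2.2.trans hG
          eG' := fun φ => lower e he0 h2L (fun φ => (hL φ).2.2) φ
          c1 := fun φ => by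
            rw [hZ φ]
            refine le_trans (le_of_eq ?_) (le_max_left _ _)
            rw [show 16 * (2 * a φ) = 32 * a φ by ring]
            rfl
          c2 := fun φ => by
            rw [hZ φ]
            refine le_trans (le_of_eq ?_) (le_max_right _ _)
            rw [show 64 * (2 * w φ) = 128 * w φ by ring]
            rfl
          prod := by
            refine le_of_pow_le_pow_left₀ hm2 (prod_nonneg fun _ _ => norm_nonneg _) ?_
            rw [← prod_pow, ← prod_pow]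
            simp only [hZ]
            exact hprod }
      fm := H.monic.1
      gm := H.monic.2.1
      qm := H.monic.2.2
      f0 := H.coeff.1
      g0 := H.coeff.2.1
      q0 := H.coeff.2.2
      hl := hl
      hlm := hlm
      diff := H.diff
      ne := H.ne
      cop := H.coprime
      a1 := fun φ => (haw φ).1
      ha := fun φ z hz => (haw φ).2.2.1 z (by
        have := isRoot_of_mem_roots hz
        rwa [IsRoot.def, eval_map] at this)
      w1 := fun φ => (haw φ).2.1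
      hw := fun φ z hz => (haw φ).2.2.2 z (by
        have := isRoot_of_mem_roots hz
        rwa [IsRoot.def, eval_map] at this) }

theorem root_map_left {R : Type*} [CommRing R] {P Q : R[X]} (ψ : R →+* ℂ) {z : ℂ}
    (hz : z ∈ (P.map ψ).roots) : (P * Q).eval₂ ψ z = 0 := by
  have := (isRoot_of_mem_roots hz).eq_zero
  rw [eval_map] at this
  rw [eval₂_mul, this, zero_mul]

/-- **Zeros are common zeros of the three parts.** -/
theorem Fam.zero {f g q : (𝓞 K)[X]} {β β' D e : 𝓞 K} {l m : ℕ} {a w : (K →+* ℂ) → ℝ}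
    (H : Fam K f g q β β' D e l m a w) {L : ℕ} (hL1 : 1 ≤ L) (hL : ∀ φ : K →+* ℂ, ‖φ β‖ ≤ 2 ^ L ∧ ‖φ β'‖ ≤ 2 ^ L ∧ ‖φ e‖ ≤ 2 ^ L)
    (hroots : ∀ (φ : K →+* ℂ) (z : ℂ), (f.scaleRoots β * g.scaleRoots β' *
      q.scaleRoots (D ^ l)).eval₂ (res φ) z = 0 → ‖z‖ ≤ 2 ^ L)
    {s t r : ℕ → K} (hs : Sol (f.map (algebraMap (𝓞 K) K)) s)
    (ht : Sol (g.map (algebraMap (𝓞 K) K)) t) (hr : Sol (q.map (algebraMap (𝓞 K) K)) r)
    {y : ℕ → 𝓞 K} {N : ℕ} (hN : f.natDegree + (g.natDegree + q.natDegree) ≤ N)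
    (hyL : ∀ φ : K →+* ℂ, ∀ i < N, ‖φ (y i)‖ ≤ 2 ^ L)
    (hy : ∀ n, (y n : K) = (β : K) ^ n * s n + (β' : K) ^ n * t n + ((D : K) ^ l) ^ n * r n)
    {n : ℕ} (hn : 25 * N ^ 2 * Module.finrank ℚ K * L < n) {ρ : 𝓞 K}
    (hρ : ∀ φ : K →+* ℂ, ‖φ ρ‖ ≤ (2 * w φ) ^ n) (h0 : y n = (D ^ l) ^ n * ρ) :
    s n = 0 ∧ t n = 0 ∧ r n = ρ := by
  obtain ⟨Z, HS⟩ := H.setup hL
  obtain ⟨hfm, hgm, hqm⟩ := H.monic
  set ψ := algebraMap (𝓞 K) K with hψ
  have hDl : (D ^ l : 𝓞 K) ≠ 0 := by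
    apply pow_ne_zero
    intro h
    have := H.diff
    have hm : m ≠ 0 := by have := H.exps; omega
    rw [h, zero_pow hm, zero_mul, sub_eq_zero] at this
    exact H.ne this.symm
  by_cases hdeg : f.natDegree + (g.natDegree + q.natDegree) = 0
  · have e1 : s n = 0 := hs.eq_zero (hfm.map ψ) (fun i hi => by
      rw [hfm.natDegree_map] at hi; omega) n
    have e2 : t n = 0 := ht.eq_zero (hgm.map ψ) (fun i hi => by
      rw [hgm.natDegree_map] at hi; omega) n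
    have e3 : r n = 0 := hr.eq_zero (hqm.map ψ) (fun i hi => by
      rw [hqm.natDegree_map] at hi; omega) n
    refine ⟨e1, e2, ?_⟩
    have h1 := hy n
    rw [e1, e2, e3, mul_zero, mul_zero, mul_zero, add_zero, add_zero, h0] at h1
    have h2 : (D ^ l) ^ n * ρ = 0 :=
      (map_eq_zero_iff (algebraMap (𝓞 K) K) RingOfIntegers.coe_injective).1 h1
    rw [(mul_eq_zero.1 h2).resolve_left (pow_ne_zero _ hDl), e3]
    simp
  set k := Module.finrank ℚ K with hk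
  have hk1 : 1 ≤ k := Module.finrank_pos
  have h2L : (1 : ℝ) ≤ 2 ^ L := one_le_pow₀ (by norm_num)
  set G : ℝ := ((2 : ℝ) ^ L) ^ k with hG
  have hG1 : 1 ≤ G := one_le_pow₀ h2L
  have hLG : (2 : ℝ) ^ L ≤ G := le_self_pow₀ h2L (by omega)
  have hG2 : 1 ≤ 2 * G ^ 2 := by nlinarith [one_le_pow₀ hG1 (n := 2)]
  have hGY : G ≤ (2 * G ^ 2) ^ 2 := by nlinarith [one_le_pow₀ hG1 (n := 2)]
  have hDpow : ∀ φ : K →+* ℂ, ‖res φ (D ^ l)‖ ≤ (2 * G ^ 2) ^ 2 := by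
    intro φ
    have h1 : ‖res φ D‖ ^ m * ‖res φ e‖ ≤ 2 * G := by
      rw [← norm_pow, ← norm_mul, ← map_pow, ← map_mul, ← H.diff, map_sub]
      refine (norm_sub_le _ _).trans ?_
      linarith [HS.loc.βG φ, HS.loc.β'G φ]
    have h2 : ‖res φ D‖ ^ m ≤ 2 * G ^ 2 := by
      calc ‖res φ D‖ ^ m ≤ ‖res φ D‖ ^ m * (G * ‖res φ e‖) :=
            le_mul_of_one_le_right (by positivity) (HS.loc.eG' φ)
        _ = G * (‖res φ D‖ ^ m * ‖res φ e‖) := by ring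
        _ ≤ G * (2 * G) := mul_le_mul_of_nonneg_left h1 (by linarith)
        _ = 2 * G ^ 2 := by ring
    rw [map_pow, norm_pow]
    by_cases hD1 : ‖res φ D‖ ≤ 1
    · exact (pow_le_one₀ (norm_nonneg _) hD1).trans (one_le_pow₀ hG2)
    · have hlm := HS.hlm
      calc ‖res φ D‖ ^ l ≤ ‖res φ D‖ ^ (m * 2) := pow_le_pow_right₀ (by linarith) (by omega)
        _ = (‖res φ D‖ ^ m) ^ 2 := pow_mul _ _ _
        _ ≤ (2 * G ^ 2) ^ 2 := pow_le_pow_left₀ (by positivity) h2 2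
  set N' := f.natDegree + (g.natDegree + q.natDegree) with hN'
  refine HS.zero_parts ψ RingOfIntegers.coe_injective hs ht hr (y := y)
    (Y := (2 * G ^ 2) ^ 2) (B := 2 ^ L) (U0 := 2 ^ L) ?_ (one_le_pow₀ hG2) ?_ ?_ hDpow h2L ?_ ?_ ?_
    hN'.symm (by omega) h2L ?_ hρ ?_ ?_
  · intro j
    rw [pow_mul]
    exact hy j
  · exact fun φ => (HS.loc.βG φ).trans hGY
  · exact fun φ => (HS.loc.β'G φ).trans hGY
  · intro φ z hz
    apply hroots φ z
    rw [mul_assoc]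
    exact root_map_left _ hz
  · intro φ z hz
    apply hroots φ z
    rw [mul_comm (f.scaleRoots β), mul_assoc]
    exact root_map_left _ hz
  · intro φ z hz
    apply hroots φ z
    rw [mul_comm (f.scaleRoots β * g.scaleRoots β')]
    exact root_map_left _ hz
  · exact fun φ i hi => hyL φ i (by omega)
  · rw [h0, pow_mul]
  · apply final_num (by omega) hk1 hL1
    refine lt_of_le_of_lt ?_ hn
    apply Nat.mul_le_mul_right
    apply Nat.mul_le_mul_right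
    apply Nat.mul_le_mul_left
    exact Nat.pow_le_pow_left hN 2

/-- **Existence of the parts.** -/
theorem Fam.parts {f g q : (𝓞 K)[X]} {β β' D e : 𝓞 K} {l m : ℕ} {a w : (K →+* ℂ) → ℝ}
    (H : Fam K f g q β β' D e l m a w)
    {y : ℕ → K} (hy : Sol ((f.scaleRoots β * g.scaleRoots β' * q.scaleRoots (D ^ l)).map
      (algebraMap (𝓞 K) K)) y) :
    ∃ s t r : ℕ → K, Sol (f.map (algebraMap (𝓞 K) K)) s ∧ Sol (g.map (algebraMap (𝓞 K) K)) t ∧
      Sol (q.map (algebraMap (𝓞 K) K)) r ∧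
      ∀ n, y n = (β : K) ^ n * s n + (β' : K) ^ n * t n + ((D : K) ^ l) ^ n * r n := by
  obtain ⟨L, hL⟩ : ∃ L : ℕ, ∀ φ : K →+* ℂ, ‖φ β‖ ≤ 2 ^ L ∧ ‖φ β'‖ ≤ 2 ^ L ∧ ‖φ e‖ ≤ 2 ^ L := by
    obtain ⟨U, hU1, hU⟩ := exists_bound (fun φ : K →+* ℂ => res φ) ![β, β', e]
    obtain ⟨L, hL⟩ := pow_unbounded_of_one_lt U (one_lt_two (α := ℝ))
    exact ⟨L, fun φ => ⟨(hU φ 0).trans hL.le, (hU φ 1).trans hL.le, (hU φ 2).trans hL.le⟩⟩
  obtain ⟨Z, HS⟩ := H.setup hL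
  exact HS.exists_parts (algebraMap (𝓞 K) K) RingOfIntegers.coe_injective hy

end field

end Pool.Agent.Work.MP_8d13b5_lc.Pd
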