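import Pool.Agent.Work.MP_8d13b5_lc.Pd.Poly2

set_option autoImplicit false

/-! The main inequality. -/

namespace Pool.Agent.Work.MP_8d13b5_lc.Pd

open Polynomial Finset

variable {R : Type*} [CommRing R]

/-- homogeneous evaluation -/
noncomputable def hom (P : ℤ[X]) (N : ℕ) (x y : R) : R :=
  ∑ i ∈ range (N + 1), (P.coeff i : R) * x ^ i * y ^ (N - i)

theorem hom_eq (φ : R →+* ℂ) (P : ℤ[X]) {N : ℕ} (hP : P.natDegree ≤ N) (x y : R) (hy : φ y ≠ 0) :
    φ (hom P N x y) = φ y ^ N * aeval (φ x / φ y) P := by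
  unfold hom
  rw [aeval_eq_sum_range' (n := N + 1) (by omega), mul_sum, map_sum]
  refine sum_congr rfl fun i hi => ?_
  rw [mem_range] at hi
  rw [map_mul, map_mul, map_intCast, map_pow, map_pow, zsmul_eq_mul, div_pow]
  have h1 : φ y ^ N = φ y ^ i * φ y ^ (N - i) := by
    rw [← pow_add]
    congr 1
    omega
  rw [h1]
  field_simp

theorem hom_norm (φ : R →+* ℂ) (P : ℤ[X]) {N : ℕ} {K : ℝ} (hK : ∀ i, |(P.coeff i : ℝ)| ≤ K)
    (x y : R) {M : ℝ} (hx : ‖φ x‖ ≤ M) (hy : ‖φ y‖ ≤ M) :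
    ‖φ (hom P N x y)‖ ≤ (N + 1 : ℕ) * K * M ^ N := by
  unfold hom
  rw [map_sum]
  refine (norm_sum_le _ _).trans ?_
  have h : ∀ i ∈ range (N + 1), ‖φ ((P.coeff i : R) * x ^ i * y ^ (N - i))‖ ≤ K * M ^ N := by
    intro i hi
    rw [mem_range] at hi
    rw [map_mul, map_mul, map_intCast, map_pow, map_pow, norm_mul, norm_mul, norm_pow, norm_pow]
    have h1 : ‖(P.coeff i : ℂ)‖ = |(P.coeff i : ℝ)| := by
      rw [Complex.norm_intCast]
    have hM0 : 0 ≤ M := (norm_nonneg _).trans hx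
    have h2 : ‖φ x‖ ^ i ≤ M ^ i := pow_le_pow_left₀ (norm_nonneg _) hx i
    have h2' : ‖φ y‖ ^ (N - i) ≤ M ^ (N - i) := pow_le_pow_left₀ (norm_nonneg _) hy _
    have h3 : M ^ N = M ^ i * M ^ (N - i) := by
      rw [← pow_add]
      congr 1
      omega
    rw [h1, h3, ← mul_assoc]
    have hK0 : 0 ≤ K := (abs_nonneg _).trans (hK i)
    exact mul_le_mul (mul_le_mul (hK i) h2 (by positivity) hK0) h2' (by positivity)
      (by positivity)
  refine (sum_le_sum h).trans (le_of_eq ?_)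
  rw [sum_const, card_range, nsmul_eq_mul]
  ring

/-- the homogeneous Pade identity -/
theorem hom_pade (φ : R →+* ℂ) (hφ : Function.Injective φ) {n k : ℕ} (hk : k < n) (x y : R)
    (hy : y ≠ 0) :
    y ^ n * hom (A n k) k x y - x ^ n * hom (B n k) k x y =
      (y - x) ^ (2 * k + 1) * hom (E n k) (n - k - 1) x y := by
  apply hφ
  have hy' : φ y ≠ 0 := fun h => hy ((map_eq_zero_iff φ hφ).1 h)
  rw [map_sub, map_mul, map_mul, map_mul, map_pow, map_pow, map_pow, map_sub,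
    hom_eq φ _ (A_natDegree n k) x y hy', hom_eq φ _ (B_natDegree n k) x y hy',
    hom_eq φ _ (E_natDegree n k) x y hy']
  set z := φ x / φ y with hz
  have hx : φ x = φ y * z := by
    rw [hz]
    field_simp
  have hid := congrArg (aeval z) (pade hk)
  rw [map_sub, map_mul, map_pow, aeval_X, map_mul, map_pow, map_sub, map_one, aeval_X] at hid
  rw [hx]
  have e1 : φ y ^ n * (φ y ^ k * (aeval z) (A n k)) - (φ y * z) ^ n * (φ y ^ k * (aeval z) (B n k)) =
      φ y ^ (n + k) * ((aeval z) (A n k) - z ^ n * (aeval z) (B n k)) := by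
    rw [mul_pow, pow_add]
    ring
  have e2 : (φ y - φ y * z) ^ (2 * k + 1) * (φ y ^ (n - k - 1) * (aeval z) (E n k)) =
      φ y ^ (n + k) * ((1 - z) ^ (2 * k + 1) * (aeval z) (E n k)) := by
    have h1 : φ y - φ y * z = φ y * (1 - z) := by ring
    have h2 : φ y ^ (n + k) = φ y ^ (2 * k + 1) * φ y ^ (n - k - 1) := by
      rw [← pow_add]
      congr 1
      omega
    rw [h1, mul_pow, h2]
    ring
  rw [e1, e2, hid]

theorem hom_det (φ : R →+* ℂ) (hφ : Function.Injective φ) {n k : ℕ} (hk : k + 1 < n) (x y : R)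
    (hy : y ≠ 0) (hxy : x ≠ y) :
    hom (A n k) k x y * hom (B n (k + 1)) (k + 1) x y -
      hom (A n (k + 1)) (k + 1) x y * hom (B n k) k x y ≠ 0 := by
  intro h0
  have hy' : φ y ≠ 0 := fun h => hy ((map_eq_zero_iff φ hφ).1 h)
  have h1 := congrArg φ h0
  rw [map_sub, map_mul, map_mul, hom_eq φ _ (A_natDegree n k) x y hy',
    hom_eq φ _ (B_natDegree n k) x y hy', hom_eq φ _ (A_natDegree n (k + 1)) x y hy',
    hom_eq φ _ (B_natDegree n (k + 1)) x y hy', map_zero] at h1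
  set z := φ x / φ y with hz
  obtain ⟨c, hc, hdet⟩ := det_eq hk
  have hid := congrArg (aeval z) hdet
  rw [map_sub, map_mul, map_mul, map_mul, aeval_C, map_pow, map_sub, map_one, aeval_X] at hid
  have h2 : φ y ^ (2 * k + 1) * ((algebraMap ℤ ℂ) c * (1 - z) ^ (2 * k + 1)) = 0 := by
    rw [← hid]
    have h3 : φ y ^ (2 * k + 1) = φ y ^ k * φ y ^ (k + 1) := by
      rw [← pow_add]
      congr 1
      omega
    rw [h3]
    linear_combination h1
  rcases mul_eq_zero.1 h2 with h3 | h3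
  · exact pow_ne_zero _ hy' h3
  · rcases mul_eq_zero.1 h3 with h4 | h4
    · rw [eq_intCast] at h4
      exact hc (by exact_mod_cast h4)
    · have h5 : 1 - z = 0 := by
        by_contra h6
        exact pow_ne_zero _ h6 h4
      have h6 : φ x = φ y := by
        have : z = 1 := by linear_combination -h5
        rw [hz, div_eq_one_iff_eq hy'] at this
        exact this
      exact hxy (hφ h6)

theorem pow_cmp {x G : ℝ} (hx : 0 ≤ x) (hG : 1 ≤ G) (h1 : x ≤ G) (h2 : 1 ≤ G * x) {a b c : ℕ}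
    (hab : a ≤ b + c) (hba : b ≤ a + c) : x ^ a ≤ x ^ b * G ^ c := by
  rcases le_total b a with h | h
  · obtain ⟨d, rfl⟩ := Nat.exists_eq_add_of_le h
    rw [pow_add]
    apply mul_le_mul_of_nonneg_left _ (by positivity)
    exact (pow_le_pow_left₀ hx h1 d).trans (pow_le_pow_right₀ hG (by omega))
  · obtain ⟨d, rfl⟩ := Nat.exists_eq_add_of_le h
    calc x ^ a ≤ x ^ a * (G * x) ^ d := le_mul_of_one_le_right (by positivity) (one_le_pow₀ h2)
      _ = x ^ (a + d) * G ^ d := by rw [mul_pow, pow_add]; ring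
      _ ≤ x ^ (a + d) * G ^ c := by
          apply mul_le_mul_of_nonneg_left _ (by positivity)
          exact pow_le_pow_right₀ hG (by omega)

/-- the estimate at one embedding -/
theorem local_bound {M e0 h ω S Z G : ℝ} {l m n k k' : ℕ} (hm : 0 < m)
    (hM0 : 0 ≤ M) (he0 : 0 ≤ e0) (hh : 0 ≤ h) (hω : 0 ≤ ω) (hS : 0 ≤ S) (hZ : 0 ≤ Z) (hG : 1 ≤ G)
    (hM1 : M ≤ G) (hM2 : 1 ≤ G * M) (he1 : e0 ≤ G) (he2 : 1 ≤ G * e0)
    (hc1 : (16 * h) ^ (2 * m) * e0 ^ (2 * l) * M ^ (2 * m - l) ≤ Z ^ (2 * m))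
    (hc2 : (64 * ω) ^ (2 * m) * M ^ l ≤ Z ^ (2 * m)) (hlm : l < 2 * m)
    (hk1 : m * (2 * k + 1) ≤ l * n) (hk2 : l * n < m * (2 * k + 3)) (hkn : k + 1 < n)
    (hk' : k' = k ∨ k' = k + 1) :
    2 ^ n * ((2 * G ^ 2) ^ 2 * (S * ω ^ n * ((k' + 1 : ℕ) * 2 ^ (n + 3 * k') * M ^ k') +
        S * h ^ n * e0 ^ (2 * k' + 1) *
          ((n - k' : ℕ) * 2 ^ (n + k' - 1) * M ^ (n - k' - 1)))) ≤ 8 * S * G ^ 8 * Z ^ n := by
  have hk'n : k' < n := by omega
  have hu : 2 * m * k' ≤ l * n + m := by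
    rcases hk' with rfl | rfl
    · nlinarith
    · nlinarith
  have hlo : l * n ≤ 2 * m * k' + 3 * m := by
    rcases hk' with rfl | rfl
    · nlinarith
    · nlinarith
  have hn2 : (n : ℝ) ≤ 2 ^ n := by exact_mod_cast (Nat.lt_two_pow_self (n := n)).le
  have c1 : ((k' + 1 : ℕ) : ℝ) * 2 ^ (n + 3 * k') ≤ 32 ^ n := by
    have a1 : ((k' + 1 : ℕ) : ℝ) ≤ 2 ^ n := by
      have : ((k' + 1 : ℕ) : ℝ) ≤ n := by exact_mod_cast hk'n
      linarith
    have a2 : (2 : ℝ) ^ (n + 3 * k') ≤ 2 ^ (4 * n) := pow_le_pow_right₀ (by norm_num) (by omega)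
    calc ((k' + 1 : ℕ) : ℝ) * 2 ^ (n + 3 * k') ≤ 2 ^ n * 2 ^ (4 * n) :=
          mul_le_mul a1 a2 (by positivity) (by positivity)
      _ = 32 ^ n := by
          rw [← pow_add, show (32 : ℝ) = 2 ^ 5 by norm_num, ← pow_mul]
          congr 1
          ring
  have c2 : ((n - k' : ℕ) : ℝ) * 2 ^ (n + k' - 1) ≤ 8 ^ n := by
    have a1 : ((n - k' : ℕ) : ℝ) ≤ 2 ^ n := by
      have : ((n - k' : ℕ) : ℝ) ≤ n := by exact_mod_cast Nat.sub_le n k'
      linarith
    have a2 : (2 : ℝ) ^ (n + k' - 1) ≤ 2 ^ (2 * n) := pow_le_pow_right₀ (by norm_num) (by omega)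
    calc ((n - k' : ℕ) : ℝ) * 2 ^ (n + k' - 1) ≤ 2 ^ n * 2 ^ (2 * n) :=
          mul_le_mul a1 a2 (by positivity) (by positivity)
      _ = 8 ^ n := by
          rw [← pow_add, show (8 : ℝ) = 2 ^ 3 by norm_num, ← pow_mul]
          congr 1
          ring
  have hm2 : 2 * m ≠ 0 := by omega
  -- the `w` term
  have hw1 : (64 * ω) ^ n * M ^ k' ≤ Z ^ n * G ^ 2 := by
    refine le_of_pow_le_pow_left₀ hm2 (by positivity) ?_
    calc ((64 * ω) ^ n * M ^ k') ^ (2 * m) = ((64 * ω) ^ (2 * m)) ^ n * M ^ (2 * m * k') := by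
          rw [mul_pow, ← pow_mul, ← pow_mul, ← pow_mul, mul_comm n, mul_comm k']
      _ ≤ ((64 * ω) ^ (2 * m)) ^ n * (M ^ (l * n) * G ^ (4 * m)) := by
          apply mul_le_mul_of_nonneg_left _ (by positivity)
          exact pow_cmp hM0 hG hM1 hM2 (by omega) (by omega)
      _ = ((64 * ω) ^ (2 * m) * M ^ l) ^ n * G ^ (4 * m) := by
          rw [mul_pow _ (M ^ l), ← pow_mul M]
          ring
      _ ≤ (Z ^ (2 * m)) ^ n * G ^ (4 * m) := by
          apply mul_le_mul_of_nonneg_right _ (by positivity)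
          exact pow_le_pow_left₀ (by positivity) hc2 n
      _ = (Z ^ n * G ^ 2) ^ (2 * m) := by
          rw [mul_pow, ← pow_mul, ← pow_mul, ← pow_mul, mul_comm n]
          congr 2
          ring
  -- the `s` term
  have hs1 : (16 * h) ^ n * e0 ^ (2 * k' + 1) * M ^ (n - k' - 1) ≤ Z ^ n * G ^ 4 := by
    refine le_of_pow_le_pow_left₀ hm2 (by positivity) ?_
    calc ((16 * h) ^ n * e0 ^ (2 * k' + 1) * M ^ (n - k' - 1)) ^ (2 * m)
        = ((16 * h) ^ (2 * m)) ^ n * e0 ^ (2 * m * (2 * k' + 1)) * M ^ (2 * m * (n - k' - 1)) := by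
          rw [mul_pow, mul_pow, ← pow_mul, ← pow_mul, ← pow_mul, ← pow_mul, mul_comm n,
            mul_comm (2 * k' + 1), mul_comm (n - k' - 1)]
      _ ≤ ((16 * h) ^ (2 * m)) ^ n * (e0 ^ (2 * l * n) * G ^ (4 * m)) *
          (M ^ ((2 * m - l) * n) * G ^ (4 * m)) := by
          apply mul_le_mul _ _ (by positivity) (by positivity)
          · apply mul_le_mul_of_nonneg_left _ (by positivity)
            apply pow_cmp he0 hG he1 he2
            · nlinarith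
            · nlinarith
          · have e1 : (2 * m - l) * n = 2 * m * n - l * n := Nat.sub_mul _ _ _
            have e2 : 2 * m * (n - k' - 1) = 2 * m * n - 2 * m * k' - 2 * m := by
              rw [Nat.mul_sub, Nat.mul_sub, mul_one]
            have e3 : 2 * m * k' + 2 * m ≤ 2 * m * n := by
              have : 2 * m * (k' + 1) ≤ 2 * m * n := Nat.mul_le_mul_left _ hk'n
              nlinarith
            have e4 : l * n ≤ 2 * m * n := Nat.mul_le_mul_right _ hlm.le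
            apply pow_cmp hM0 hG hM1 hM2
            · rw [e1, e2]; omega
            · rw [e1, e2]; omega
      _ = ((16 * h) ^ (2 * m) * e0 ^ (2 * l) * M ^ (2 * m - l)) ^ n * G ^ (8 * m) := by
          rw [mul_pow _ (M ^ (2 * m - l)), mul_pow _ (e0 ^ (2 * l)), ← pow_mul e0, ← pow_mul M,
            show 8 * m = 4 * m + 4 * m by ring, pow_add]
          ring
      _ ≤ (Z ^ (2 * m)) ^ n * G ^ (8 * m) := by
          apply mul_le_mul_of_nonneg_right _ (by positivity)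
          exact pow_le_pow_left₀ (by positivity) hc1 n
      _ = (Z ^ n * G ^ 4) ^ (2 * m) := by
          rw [mul_pow, ← pow_mul, ← pow_mul, ← pow_mul, mul_comm n]
          congr 2
          ring
  have t1 : 2 ^ n * (S * ω ^ n * ((k' + 1 : ℕ) * 2 ^ (n + 3 * k') * M ^ k')) ≤
      S * (Z ^ n * G ^ 2) := by
    calc 2 ^ n * (S * ω ^ n * ((k' + 1 : ℕ) * 2 ^ (n + 3 * k') * M ^ k'))
        ≤ 2 ^ n * (S * ω ^ n * (32 ^ n * M ^ k')) := by
          apply mul_le_mul_of_nonneg_left _ (by positivity)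
          apply mul_le_mul_of_nonneg_left _ (by positivity)
          exact mul_le_mul_of_nonneg_right c1 (by positivity)
      _ = S * ((64 * ω) ^ n * M ^ k') := by
          rw [mul_pow, show (64 : ℝ) ^ n = 32 ^ n * 2 ^ n by rw [← mul_pow]; norm_num]
          ring
      _ ≤ S * (Z ^ n * G ^ 2) := mul_le_mul_of_nonneg_left hw1 hS
  have t2 : 2 ^ n * (S * h ^ n * e0 ^ (2 * k' + 1) *
      ((n - k' : ℕ) * 2 ^ (n + k' - 1) * M ^ (n - k' - 1))) ≤ S * (Z ^ n * G ^ 4) := by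
    calc 2 ^ n * (S * h ^ n * e0 ^ (2 * k' + 1) *
        ((n - k' : ℕ) * 2 ^ (n + k' - 1) * M ^ (n - k' - 1)))
        ≤ 2 ^ n * (S * h ^ n * e0 ^ (2 * k' + 1) * (8 ^ n * M ^ (n - k' - 1))) := by
          apply mul_le_mul_of_nonneg_left _ (by positivity)
          apply mul_le_mul_of_nonneg_left _ (by positivity)
          exact mul_le_mul_of_nonneg_right c2 (by positivity)
      _ = S * ((16 * h) ^ n * e0 ^ (2 * k' + 1) * M ^ (n - k' - 1)) := by
          rw [mul_pow, show (16 : ℝ) ^ n = 8 ^ n * 2 ^ n by rw [← mul_pow]; norm_num]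
          ring
      _ ≤ S * (Z ^ n * G ^ 4) := mul_le_mul_of_nonneg_left hs1 hS
  have hG24 : G ^ 2 ≤ G ^ 4 := pow_le_pow_right₀ hG (by norm_num)
  calc 2 ^ n * ((2 * G ^ 2) ^ 2 * (S * ω ^ n * ((k' + 1 : ℕ) * 2 ^ (n + 3 * k') * M ^ k') +
        S * h ^ n * e0 ^ (2 * k' + 1) *
          ((n - k' : ℕ) * 2 ^ (n + k' - 1) * M ^ (n - k' - 1))))
      = (2 * G ^ 2) ^ 2 * (2 ^ n * (S * ω ^ n * ((k' + 1 : ℕ) * 2 ^ (n + 3 * k') * M ^ k')) +
        2 ^ n * (S * h ^ n * e0 ^ (2 * k' + 1) *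
          ((n - k' : ℕ) * 2 ^ (n + k' - 1) * M ^ (n - k' - 1)))) := by ring
    _ ≤ (2 * G ^ 2) ^ 2 * (S * (Z ^ n * G ^ 2) + S * (Z ^ n * G ^ 4)) :=
        mul_le_mul_of_nonneg_left (add_le_add t1 t2) (by positivity)
    _ ≤ (2 * G ^ 2) ^ 2 * (S * (Z ^ n * G ^ 4) + S * (Z ^ n * G ^ 4)) := by
        apply mul_le_mul_of_nonneg_left _ (by positivity)
        apply add_le_add_left
        apply mul_le_mul_of_nonneg_left _ hS
        exact mul_le_mul_of_nonneg_left hG24 (by positivity)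
    _ = 8 * S * G ^ 8 * Z ^ n := by ring

/-- the local data at the embeddings -/
structure Loc {ι : Type*} [Fintype ι] (Φ : ι → (R →+* ℂ)) (β β' e : R) (l m : ℕ)
    (h ω Z : ι → ℝ) (G : ℝ) : Prop where
  inj : ∀ j, Function.Injective (Φ j)
  norm : ∀ x : R, x ≠ 0 → 1 ≤ ∏ j, ‖Φ j x‖
  h1 : ∀ j, 1 ≤ h j
  ω1 : ∀ j, 1 ≤ ω j
  Z0 : ∀ j, 0 ≤ Z j
  G1 : 1 ≤ G
  βG : ∀ j, ‖Φ j β‖ ≤ G
  β'G : ∀ j, ‖Φ j β'‖ ≤ G
  β'G' : ∀ j, 1 ≤ G * ‖Φ j β'‖
  eG : ∀ j, ‖Φ j e‖ ≤ G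
  eG' : ∀ j, 1 ≤ G * ‖Φ j e‖
  c1 : ∀ j, (16 * h j) ^ (2 * m) * ‖Φ j e‖ ^ (2 * l) *
    (max ‖Φ j β‖ ‖Φ j β'‖) ^ (2 * m - l) ≤ Z j ^ (2 * m)
  c2 : ∀ j, (64 * ω j) ^ (2 * m) * (max ‖Φ j β‖ ‖Φ j β'‖) ^ l ≤ Z j ^ (2 * m)
  prod : ∏ j, Z j ≤ ∏ j, ‖Φ j β'‖

/-- **Main inequality.** -/
theorem core [IsDomain R] {ι : Type*} [Fintype ι] [Nonempty ι] {Φ : ι → (R →+* ℂ)}
    {β β' D e : R} {l m : ℕ} {h ω Z : ι → ℝ} {G : ℝ} (H : Loc Φ β β' e l m h ω Z G)
    (hl : 1 ≤ l) (hlm : l < 2 * m)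
    (hδ : β' - β = D ^ m * e) (hne : β ≠ β') (hco : IsCoprime D β')
    {S : ℝ} (hS : 1 ≤ S)
    {n : ℕ} {s t w : R} (hs : ∀ j, ‖Φ j s‖ ≤ S * h j ^ n) (hw : ∀ j, ‖Φ j w‖ ≤ S * ω j ^ n)
    (heq : β ^ n * s + β' ^ n * t + D ^ (l * n) * w = 0)
    (hbig : 8 * S * G ^ 8 < 2 ^ n) :
    s = 0 ∧ t = 0 ∧ w = 0 := by
  classical
  have hm : 0 < m := by omega
  have hG := H.G1
  have hS0 : 0 ≤ S := by linarith
  set M : ι → ℝ := fun j => max ‖Φ j β‖ ‖Φ j β'‖ with hM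
  have hM0 : ∀ j, 0 ≤ M j := fun j => (norm_nonneg _).trans (le_max_left _ _)
  have hβM : ∀ j, ‖Φ j β‖ ≤ M j := fun j => le_max_left _ _
  have hβ'M : ∀ j, ‖Φ j β'‖ ≤ M j := fun j => le_max_right _ _
  have hMG : ∀ j, M j ≤ G := fun j => max_le (H.βG j) (H.β'G j)
  have hMG' : ∀ j, 1 ≤ G * M j := fun j => (H.β'G' j).trans
    (mul_le_mul_of_nonneg_left (hβ'M j) (by linarith))
  have he0 : e ≠ 0 := by
    rintro rfl
    rw [mul_zero, sub_eq_zero] at hδ
    exact hne hδ.symm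
  have hD0 : D ≠ 0 := by
    rintro rfl
    rw [zero_pow hm.ne', zero_mul, sub_eq_zero] at hδ
    exact hne hδ.symm
  have hb0 : ∀ j, 0 < ‖Φ j β'‖ := by
    intro j
    have := H.β'G' j
    by_contra hcon
    have h0 : ‖Φ j β'‖ = 0 := le_antisymm (not_lt.1 hcon) (norm_nonneg _)
    rw [h0, mul_zero] at this
    linarith
  have hβ' : β' ≠ 0 := by
    obtain ⟨j⟩ := ‹Nonempty ι›
    rintro rfl
    have := hb0 j
    rw [map_zero, norm_zero] at this
    exact lt_irrefl _ this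
  -- lower bounds for `n`
  have hG4 : G ^ 4 < 2 ^ n := by
    refine lt_of_le_of_lt ?_ hbig
    have h1 : G ^ 4 ≤ G ^ 8 := pow_le_pow_right₀ hG (by norm_num)
    have h2 : 0 < G ^ 8 := by positivity
    nlinarith
  set κ := Fintype.card ι with hκ
  have hκ0 : κ ≠ 0 := Fintype.card_ne_zero
  have hprodZ : ∏ j, Z j ^ (2 * m) ≤ ∏ j, M j ^ (2 * m) := by
    rw [prod_pow, prod_pow]
    apply pow_le_pow_left₀ (prod_nonneg fun j _ => H.Z0 j)
    exact H.prod.trans (prod_le_prod (fun _ _ => norm_nonneg _) fun j _ => hβ'M j)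
  have hMpos : ∀ j, 0 < M j := fun j => (hb0 j).trans_le (hβ'M j)
  have hsplit : ∀ j, M j ^ (2 * m) = M j ^ (2 * m - l) * M j ^ l := by
    intro j
    rw [← pow_add]
    congr 1
    omega
  have hcard1 : (16 : ℝ) ^ (2 * m) ≤ G ^ l := by
    refine le_of_pow_le_pow_left₀ hκ0 (by positivity) ?_
    have h1 : ∏ j, ((16 * h j) ^ (2 * m) * ‖Φ j e‖ ^ (2 * l) * M j ^ (2 * m - l)) ≤
        ∏ j, M j ^ (2 * m) :=
      (prod_le_prod (fun j _ => by have := H.h1 j; have := hM0 j; positivity)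
        (fun j _ => H.c1 j)).trans hprodZ
    simp only [hsplit] at h1
    rw [prod_mul_distrib, prod_mul_distrib, prod_mul_distrib, mul_comm (∏ j, M j ^ (2 * m - l))] at h1
    have h2 : 0 < ∏ j, M j ^ (2 * m - l) := prod_pos fun j _ => pow_pos (hMpos j) _
    have h3 := le_of_mul_le_mul_right h1 h2
    have h4 : 1 ≤ ∏ j, ‖Φ j e‖ ^ (2 * l) := by
      rw [prod_pow]
      exact one_le_pow₀ (H.norm e he0)
    calc ((16 : ℝ) ^ (2 * m)) ^ κ = ∏ _j : ι, (16 : ℝ) ^ (2 * m) := by rw [prod_const, card_univ]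
      _ ≤ ∏ j, (16 * h j) ^ (2 * m) := prod_le_prod (fun _ _ => by positivity)
          fun j _ => pow_le_pow_left₀ (by norm_num) (by linarith [H.h1 j]) _
      _ ≤ (∏ j, (16 * h j) ^ (2 * m)) * ∏ j, ‖Φ j e‖ ^ (2 * l) :=
          le_mul_of_one_le_right (prod_nonneg fun j _ => by have := H.h1 j; positivity) h4
      _ ≤ ∏ j, M j ^ l := h3
      _ ≤ ∏ _j : ι, G ^ l := prod_le_prod (fun j _ => pow_nonneg (hM0 j) _)
          fun j _ => pow_le_pow_left₀ (hM0 j) (hMG j) _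
      _ = (G ^ l) ^ κ := by rw [prod_const, card_univ]
  have hcard2 : (64 : ℝ) ^ (2 * m) ≤ G ^ (2 * m - l) := by
    refine le_of_pow_le_pow_left₀ hκ0 (by positivity) ?_
    have h1 : ∏ j, ((64 * ω j) ^ (2 * m) * M j ^ l) ≤ ∏ j, M j ^ (2 * m) :=
      (prod_le_prod (fun j _ => by have := H.ω1 j; have := hM0 j; positivity)
        (fun j _ => H.c2 j)).trans hprodZ
    simp only [hsplit] at h1
    rw [prod_mul_distrib, prod_mul_distrib] at h1
    have h2 : 0 < ∏ j, M j ^ l := prod_pos fun j _ => pow_pos (hMpos j) _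
    have h3 := le_of_mul_le_mul_right h1 h2
    calc ((64 : ℝ) ^ (2 * m)) ^ κ = ∏ _j : ι, (64 : ℝ) ^ (2 * m) := by rw [prod_const, card_univ]
      _ ≤ ∏ j, (64 * ω j) ^ (2 * m) := prod_le_prod (fun _ _ => by positivity)
          fun j _ => pow_le_pow_left₀ (by norm_num) (by linarith [H.ω1 j]) _
      _ ≤ ∏ j, M j ^ (2 * m - l) := h3
      _ ≤ ∏ _j : ι, G ^ (2 * m - l) := prod_le_prod (fun j _ => pow_nonneg (hM0 j) _)
          fun j _ => pow_le_pow_left₀ (hM0 j) (hMG j) _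
      _ = (G ^ (2 * m - l)) ^ κ := by rw [prod_const, card_univ]
  have hln : 32 * m < l * n := by
    have h2 : (2 : ℝ) ^ (32 * m) < 2 ^ (l * n) := by
      calc (2 : ℝ) ^ (32 * m) = (16 ^ (2 * m)) ^ 4 := by
            rw [show (16 : ℝ) = 2 ^ 4 by norm_num, ← pow_mul, ← pow_mul]
            congr 1
            ring
        _ ≤ (G ^ l) ^ 4 := pow_le_pow_left₀ (by positivity) hcard1 4
        _ = (G ^ 4) ^ l := by rw [← pow_mul, ← pow_mul, mul_comm]
        _ < (2 ^ n) ^ l := pow_lt_pow_left₀ hG4 (by positivity) (by omega)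
        _ = 2 ^ (l * n) := by rw [← pow_mul, mul_comm]
    exact (pow_lt_pow_iff_right₀ (by norm_num)).1 h2
  have hmn : 48 * m + l * n < 2 * m * n := by
    have h2 : (2 : ℝ) ^ (48 * m) < 2 ^ ((2 * m - l) * n) := by
      calc (2 : ℝ) ^ (48 * m) = (64 ^ (2 * m)) ^ 4 := by
            rw [show (64 : ℝ) = 2 ^ 6 by norm_num, ← pow_mul, ← pow_mul]
            congr 1
            ring
        _ ≤ (G ^ (2 * m - l)) ^ 4 := pow_le_pow_left₀ (by positivity) hcard2 4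
        _ = (G ^ 4) ^ (2 * m - l) := by rw [← pow_mul, ← pow_mul, mul_comm]
        _ < (2 ^ n) ^ (2 * m - l) := pow_lt_pow_left₀ hG4 (by positivity) (by omega)
        _ = 2 ^ ((2 * m - l) * n) := by rw [← pow_mul, mul_comm]
    have h3 := (pow_lt_pow_iff_right₀ (by norm_num)).1 h2
    rw [Nat.sub_mul] at h3
    omega
  obtain ⟨k, hk1, hk2⟩ : ∃ k, m * (2 * k + 1) ≤ l * n ∧ l * n < m * (2 * k + 3) := by
    refine ⟨(l * n / m - 1) / 2, ?_, ?_⟩
    · have h1 : 32 ≤ l * n / m := (Nat.le_div_iff_mul_le hm).2 (by omega)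
      have h2 : 2 * ((l * n / m - 1) / 2) + 1 ≤ l * n / m := by omega
      exact (Nat.mul_le_mul_left m h2).trans (Nat.mul_div_le _ _)
    · have h2 : l * n / m + 1 ≤ 2 * ((l * n / m - 1) / 2) + 3 := by omega
      exact (Nat.lt_mul_div_succ _ hm).trans_le (Nat.mul_le_mul_left m h2)
  have hkn : k + 1 < n := by
    by_contra hcon
    have h1 : 2 * m * n ≤ 2 * m * (k + 1) := Nat.mul_le_mul_left _ (not_lt.1 hcon)
    nlinarith
  -- the size of `D`
  have hDm : ∀ j, ‖Φ j D‖ ^ m ≤ 2 * G ^ 2 := by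
    intro j
    have h1 : ‖Φ j D‖ ^ m * ‖Φ j e‖ ≤ 2 * G := by
      rw [← norm_pow, ← norm_mul, ← map_pow, ← map_mul, ← hδ, map_sub]
      refine (norm_sub_le _ _).trans ?_
      linarith [H.βG j, H.β'G j]
    calc ‖Φ j D‖ ^ m ≤ ‖Φ j D‖ ^ m * (G * ‖Φ j e‖) :=
          le_mul_of_one_le_right (by positivity) (H.eG' j)
      _ = G * (‖Φ j D‖ ^ m * ‖Φ j e‖) := by ring
      _ ≤ G * (2 * G) := mul_le_mul_of_nonneg_left h1 (by linarith)
      _ = 2 * G ^ 2 := by ring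
  have hG2 : 1 ≤ 2 * G ^ 2 := by nlinarith [one_le_pow₀ hG (n := 2)]
  have hDpow : ∀ j, ∀ i : ℕ, i ≤ 2 * m → ‖Φ j D‖ ^ i ≤ (2 * G ^ 2) ^ 2 := by
    intro j i hi
    by_cases hD1 : ‖Φ j D‖ ≤ 1
    · calc ‖Φ j D‖ ^ i ≤ 1 := pow_le_one₀ (norm_nonneg _) hD1
        _ ≤ (2 * G ^ 2) ^ 2 := one_le_pow₀ hG2
    · calc ‖Φ j D‖ ^ i ≤ ‖Φ j D‖ ^ (m * 2) := pow_le_pow_right₀ (by linarith) (by omega)
        _ = (‖Φ j D‖ ^ m) ^ 2 := pow_mul _ _ _
        _ ≤ (2 * G ^ 2) ^ 2 := pow_le_pow_left₀ (by positivity) (hDm j) 2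
  obtain ⟨j₀⟩ := ‹Nonempty ι›
  have hz : ∀ k', (k' = k ∨ k' = k + 1) →
      s * hom (A n k') k' β β' + t * hom (B n k') k' β β' = 0 := by
    intro k' hk'
    by_contra hL
    have hkn' : k' < n := by omega
    set L := s * hom (A n k') k' β β' + t * hom (B n k') k' β β' with hLdef
    set μ := min (l * n) (m * (2 * k' + 1)) with hμ
    have h1 : μ ≤ l * n := min_le_left _ _
    have h2 : μ ≤ m * (2 * k' + 1) := min_le_right _ _
    have h3 : l * n ≤ μ + 2 * m := by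
      rcases hk' with rfl | rfl
      · rw [hμ, min_eq_right (by omega)]; nlinarith
      · rw [hμ, min_eq_left (by nlinarith)]; omega
    have h4 : m * (2 * k' + 1) ≤ μ + 2 * m := by
      rcases hk' with rfl | rfl
      · rw [hμ, min_eq_right (by omega)]; omega
      · rw [hμ, min_eq_left (by nlinarith)]; nlinarith
    set T := -(D ^ (l * n - μ) * w * hom (B n k') k' β β') +
      s * (D ^ (m * (2 * k' + 1) - μ) * e ^ (2 * k' + 1)) * hom (E n k') (n - k' - 1) β β' with hT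
    have hpade := hom_pade (Φ j₀) (H.inj j₀) hkn' β β' hβ'
    have h5 : β' ^ n * L = D ^ μ * T := by
      have hDn : D ^ (l * n) = D ^ μ * D ^ (l * n - μ) := by
        rw [← pow_add]
        congr 1
        omega
      have hDm : D ^ (m * (2 * k' + 1)) = D ^ μ * D ^ (m * (2 * k' + 1) - μ) := by
        rw [← pow_add]
        congr 1
        omega
      rw [hδ, mul_pow, ← pow_mul, hDm] at hpade
      rw [hDn] at heq
      rw [hLdef, hT]
      linear_combination s * hpade + hom (B n k') k' β β' * heq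
    have hdvd : D ^ μ ∣ L := by
      apply (hco.pow : IsCoprime (D ^ μ) (β' ^ n)).dvd_of_dvd_mul_left
      rw [h5]
      exact Dvd.intro _ rfl
    obtain ⟨L', hL'⟩ := hdvd
    have hL'0 : L' ≠ 0 := by
      rintro rfl
      rw [mul_zero] at hL'
      exact hL hL'
    have h6 : β' ^ n * L' = T := by
      apply mul_left_cancel₀ (pow_ne_zero μ hD0)
      rw [← h5, hL']
      ring
    -- the estimates at the embeddings
    have hloc : ∀ j, 2 ^ n * ‖Φ j T‖ ≤ 8 * S * G ^ 8 * Z j ^ n := by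
      intro j
      have hBn := hom_norm (Φ j) (B n k') (N := k') (K := 2 ^ (n + 3 * k')) (fun i => by
        exact_mod_cast B_coeff_abs hkn' i) β β' (hβM j) (hβ'M j)
      have hEn := hom_norm (Φ j) (E n k') (N := n - k' - 1) (K := 2 ^ (n + k' - 1)) (fun i => by
        exact_mod_cast E_coeff_abs n k' i) β β' (hβM j) (hβ'M j)
      have hnk : n - k' - 1 + 1 = n - k' := by omega
      rw [hnk] at hEn
      have hMj := hM0 j
      have hh := H.h1 j
      have hω := H.ω1 j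
      have h8 : ‖Φ j T‖ ≤ (2 * G ^ 2) ^ 2 * (S * ω j ^ n * ((k' + 1 : ℕ) * 2 ^ (n + 3 * k') *
          M j ^ k') + S * h j ^ n * ‖Φ j e‖ ^ (2 * k' + 1) *
            ((n - k' : ℕ) * 2 ^ (n + k' - 1) * M j ^ (n - k' - 1))) := by
        have h9 : ‖Φ j T‖ ≤ ‖Φ j (D ^ (l * n - μ) * w * hom (B n k') k' β β')‖ +
            ‖Φ j (s * (D ^ (m * (2 * k' + 1) - μ) * e ^ (2 * k' + 1)) *
              hom (E n k') (n - k' - 1) β β')‖ := by
          rw [hT, map_add, map_neg]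
          refine (norm_add_le _ _).trans (le_of_eq ?_)
          rw [norm_neg]
        refine h9.trans ?_
        rw [mul_add ((2 * G ^ 2) ^ 2)]
        refine add_le_add ?_ ?_
        · rw [map_mul, map_mul, map_pow, norm_mul, norm_mul, norm_pow, mul_assoc]
          exact mul_le_mul (hDpow j _ (by omega)) (mul_le_mul (hw j) hBn (norm_nonneg _)
            (by positivity)) (by positivity) (by positivity)
        · rw [map_mul, map_mul, map_mul, map_pow, map_pow, norm_mul, norm_mul, norm_mul, norm_pow,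
            norm_pow]
          calc ‖Φ j s‖ * (‖Φ j D‖ ^ (m * (2 * k' + 1) - μ) * ‖Φ j e‖ ^ (2 * k' + 1)) *
                ‖Φ j (hom (E n k') (n - k' - 1) β β')‖
              ≤ (S * h j ^ n) * ((2 * G ^ 2) ^ 2 * ‖Φ j e‖ ^ (2 * k' + 1)) *
                ((n - k' : ℕ) * 2 ^ (n + k' - 1) * M j ^ (n - k' - 1)) := by
                apply mul_le_mul _ hEn (norm_nonneg _) (by positivity)
                apply mul_le_mul (hs j) _ (by positivity) (by positivity)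
                exact mul_le_mul_of_nonneg_right (hDpow j _ (by omega)) (by positivity)
            _ = _ := by ring
      refine (mul_le_mul_of_nonneg_left h8 (by positivity)).trans ?_
      exact local_bound hm (hM0 j) (norm_nonneg _) (by linarith) (by linarith) hS0
        (H.Z0 j) hG (hMG j) (hMG' j) (H.eG j) (H.eG' j) (H.c1 j) (H.c2 j) hlm hk1 hk2 hkn hk'
    have h10 : ∏ j, (2 ^ n * ‖Φ j T‖) ≤ ∏ j, (8 * S * G ^ 8 * Z j ^ n) :=
      prod_le_prod (fun _ _ => by positivity) fun j _ => hloc j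
    rw [prod_mul_distrib, prod_mul_distrib, prod_const, prod_const, card_univ, prod_pow] at h10
    have h11 : ∏ j, ‖Φ j T‖ = (∏ j, ‖Φ j β'‖) ^ n * ∏ j, ‖Φ j L'‖ := by
      rw [← h6, ← prod_pow, ← prod_mul_distrib]
      refine prod_congr rfl fun j _ => ?_
      rw [map_mul, map_pow, norm_mul, norm_pow]
    have hP0 : 0 < ∏ j, ‖Φ j β'‖ := prod_pos fun j _ => hb0 j
    have h12 : (∏ j, ‖Φ j β'‖) ^ n ≤ ∏ j, ‖Φ j T‖ := by
      rw [h11]
      exact le_mul_of_one_le_right (by positivity) (H.norm L' hL'0)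
    have h13 : (∏ j, Z j) ^ n ≤ (∏ j, ‖Φ j β'‖) ^ n :=
      pow_le_pow_left₀ (prod_nonneg fun j _ => H.Z0 j) H.prod n
    have h14 : ((2 : ℝ) ^ n) ^ κ * (∏ j, ‖Φ j β'‖) ^ n ≤
        (8 * S * G ^ 8) ^ κ * (∏ j, ‖Φ j β'‖) ^ n :=
      (mul_le_mul_of_nonneg_left h12 (by positivity)).trans
        (h10.trans (mul_le_mul_of_nonneg_left h13 (by positivity)))
    have h15 : ((2 : ℝ) ^ n) ^ κ ≤ (8 * S * G ^ 8) ^ κ := le_of_mul_le_mul_right h14 (by positivity)
    have h16 : (2 : ℝ) ^ n ≤ 8 * S * G ^ 8 := le_of_pow_le_pow_left₀ hκ0 (by positivity) h15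
    exact absurd h16 (not_le.2 hbig)
  have h0 := hz k (Or.inl rfl)
  have h1 := hz (k + 1) (Or.inr rfl)
  have hdet := hom_det (Φ j₀) (H.inj j₀) (n := n) (k := k) (by omega) β β' hβ' hne
  set a0 := hom (A n k) k β β'
  set b0 := hom (B n k) k β β'
  set a1 := hom (A n (k + 1)) (k + 1) β β'
  set b1 := hom (B n (k + 1)) (k + 1) β β'
  have hs0 : s = 0 := by
    have : s * (a0 * b1 - a1 * b0) = 0 := by linear_combination b1 * h0 - b0 * h1
    exact (mul_eq_zero.1 this).resolve_right hdet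
  have ht0 : t = 0 := by
    have : t * (a0 * b1 - a1 * b0) = 0 := by linear_combination a0 * h1 - a1 * h0
    exact (mul_eq_zero.1 this).resolve_right hdet
  refine ⟨hs0, ht0, ?_⟩
  rw [hs0, ht0, mul_zero, mul_zero, zero_add, zero_add] at heq
  exact (mul_eq_zero.1 heq).resolve_left (pow_ne_zero _ hD0)

end Pool.Agent.Work.MP_8d13b5_lc.Pd
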