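import Pool.Agent.Work.MP_8d13b5_lc.Pd.NF
import Pool.Agent.Work.MP_8d13b5_lc.USMain

set_option autoImplicit false

/-! From the input data of an integer linear recurrence sequence to the zero bound. -/

namespace Pool.Agent.Work.MP_8d13b5_lc.Pd

open Polynomial Finset NumberField Pool.Agent.Work.MP_8d13b5_lc.US

/-- `u` is the sequence with data `p = ((c_1, ..., c_d), (u_0, ..., u_(d-1)))` -/
def IsSeq (p : List ℤ × List ℤ) (u : ℕ → ℤ) : Prop :=
  p.1.length = p.2.length ∧ 1 ≤ p.1.length ∧ p.1.getD (p.1.length - 1) 0 ≠ 0 ∧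
    (∀ i, i < p.1.length → u i = p.2.getD i 0) ∧
    ∀ n : ℕ, u (n + p.1.length) =
      ∑ j ∈ Finset.range p.1.length, p.1.getD j 0 * u (n + p.1.length - 1 - j)

/-- `z` is a characteristic root: `z ^ d = c_1 z ^ (d - 1) + ... + c_d` -/
def IsRt (c : List ℤ) (z : ℂ) : Prop :=
  z ^ c.length = ∑ j ∈ Finset.range c.length, ((c.getD j 0 : ℤ) : ℂ) * z ^ (c.length - 1 - j)

/-- the order plus the absolute values of all entries of the data -/
def size (p : List ℤ × List ℤ) : ℕ :=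
  p.1.length + (p.1.map Int.natAbs).sum + (p.2.map Int.natAbs).sum

theorem sum_getD (c : List ℤ) :
    ∑ j ∈ range c.length, (c.getD j 0).natAbs = (c.map Int.natAbs).sum := by
  induction c with
  | nil => simp
  | cons a t ih =>
    rw [List.length_cons, sum_range_succ', List.map_cons, List.sum_cons, ← ih, add_comm]
    rfl

theorem size_pos {p : List ℤ × List ℤ} (h : 1 ≤ p.1.length) : 1 ≤ size p := by
  unfold size
  omega

theorem root_bound {p : List ℤ × List ℤ} (hp : 1 ≤ p.1.length) {z : ℂ} (h : IsRt p.1 z) :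
    ‖z‖ ≤ size p := by
  have hs : (1 : ℝ) ≤ size p := by exact_mod_cast size_pos hp
  by_cases hz : ‖z‖ ≤ 1
  · linarith
  have hz1 : 1 ≤ ‖z‖ := by linarith
  have h1 : ‖z‖ ^ p.1.length ≤ ((p.1.map Int.natAbs).sum : ℝ) * ‖z‖ ^ (p.1.length - 1) := by
    rw [← norm_pow, h, ← sum_getD]
    push_cast
    rw [sum_mul]
    refine (norm_sum_le _ _).trans (sum_le_sum fun j _ => ?_)
    rw [norm_mul, norm_pow, Complex.norm_intCast]
    have h2 : |((p.1.getD j 0 : ℤ) : ℝ)| = ((p.1.getD j 0).natAbs : ℝ) := by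
      rw [Nat.cast_natAbs, Int.cast_abs]
    rw [h2]
    exact mul_le_mul_of_nonneg_left (pow_le_pow_right₀ hz1 (by omega)) (by positivity)
  have h3 : ‖z‖ ^ p.1.length = ‖z‖ * ‖z‖ ^ (p.1.length - 1) := by
    rw [← pow_succ']
    congr 1
    omega
  rw [h3] at h1
  have h4 : ‖z‖ ≤ ((p.1.map Int.natAbs).sum : ℝ) := le_of_mul_le_mul_right h1 (by positivity)
  refine h4.trans ?_
  have : (p.1.map Int.natAbs).sum ≤ size p := by unfold size; omega
  exact_mod_cast this

theorem natAbs_getD_le (l : List ℤ) (i : ℕ) : (l.getD i 0).natAbs ≤ (l.map Int.natAbs).sum := by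
  by_cases h : i < l.length
  · rw [List.getD_eq_getElem _ _ h]
    exact List.le_sum_of_mem (List.mem_map_of_mem (List.getElem_mem h))
  · rw [List.getD_eq_default _ _ (by omega)]
    simp

theorem val_bound {p : List ℤ × List ℤ} {u : ℕ → ℤ} (h : IsSeq p u) (n : ℕ) :
    (u n).natAbs ≤ size p ^ (n + 1) := by
  obtain ⟨h1, h2, h3, h4, h5⟩ := h
  have hs := size_pos h2
  induction n using Nat.strong_induction_on with
  | _ n ih =>
    by_cases hn : n < p.1.length
    · rw [h4 n hn]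
      calc (p.2.getD n 0).natAbs ≤ (p.2.map Int.natAbs).sum := natAbs_getD_le _ _
        _ ≤ size p := by unfold size; omega
        _ ≤ size p ^ (n + 1) := Nat.le_self_pow (by omega) _
    · obtain ⟨i, rfl⟩ : ∃ i, n = i + p.1.length := ⟨n - p.1.length, by omega⟩
      rw [h5 i]
      have h6 : (∑ j ∈ range p.1.length, p.1.getD j 0 * u (i + p.1.length - 1 - j)).natAbs ≤
          ∑ j ∈ range p.1.length, (p.1.getD j 0 * u (i + p.1.length - 1 - j)).natAbs :=
        Int.natAbs_sum_le _ _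
      refine h6.trans ?_
      calc ∑ j ∈ range p.1.length, (p.1.getD j 0 * u (i + p.1.length - 1 - j)).natAbs
          ≤ ∑ j ∈ range p.1.length, (p.1.getD j 0).natAbs * size p ^ (i + p.1.length) := by
            refine sum_le_sum fun j hj => ?_
            rw [mem_range] at hj
            rw [Int.natAbs_mul]
            apply Nat.mul_le_mul_left
            refine (ih _ (by omega)).trans ?_
            exact Nat.pow_le_pow_right hs (by omega)
        _ = (p.1.map Int.natAbs).sum * size p ^ (i + p.1.length) := by rw [← sum_mul, sum_getD]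
        _ ≤ size p * size p ^ (i + p.1.length) := by
            apply Nat.mul_le_mul_right
            unfold size
            omega
        _ = size p ^ (i + p.1.length + 1) := by rw [pow_succ']

/-- the logarithmic size -/
def lsize (p : List ℤ × List ℤ) : ℕ := Nat.log 2 (size p + 2) + 1

theorem size_le (p : List ℤ × List ℤ) : size p ≤ 2 ^ lsize p := by
  have := Nat.lt_pow_succ_log_self (b := 2) (by norm_num) (size p + 2)
  unfold lsize
  omega

theorem lsize_le (p : List ℤ × List ℤ) : lsize p ≤ size p + 3 := by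
  have := Nat.log_le_self 2 (size p + 2)
  unfold lsize
  omega

/-- **The zero bound in terms of the data.** -/
theorem data_bound {K : Type*} [Field K] [NumberField K] {f g q : (𝓞 K)[X]} {c β β' D e : 𝓞 K}
    {l m : ℕ} {a w : (K →+* ℂ) → ℝ} (H : Fam K f g q β β' D e l m a w) {A : ℕ}
    (hA : ∀ φ : K →+* ℂ, ‖φ c‖ ≤ 2 ^ A ∧ ‖φ β‖ ≤ 2 ^ A ∧ ‖φ β'‖ ≤ 2 ^ A ∧ ‖φ e‖ ≤ 2 ^ A)
    {p : List ℤ × List ℤ} {u : ℕ → ℤ} (hu : IsSeq p u) {T j : ℕ} (hT : 1 ≤ T) (hj : j < T)
    (hdeg : f.natDegree + g.natDegree + q.natDegree ≤ p.1.length)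
    (hroots : ∀ (φ : K →+* ℂ) (z : ℂ), (f.scaleRoots β * g.scaleRoots β' *
      q.scaleRoots (D ^ l)).eval₂ (res φ) z = 0 → ∃ x : ℂ, IsRt p.1 x ∧ z = φ c * x ^ T)
    {s t r : ℕ → K} (hs : Sol (f.map (algebraMap (𝓞 K) K)) s)
    (ht : Sol (g.map (algebraMap (𝓞 K) K)) t) (hr : Sol (q.map (algebraMap (𝓞 K) K)) r)
    (hy : ∀ n, (c : K) ^ n * (u (j + T * n) : K) =
      (β : K) ^ n * s n + (β' : K) ^ n * t n + ((D : K) ^ l) ^ n * r n)
    {n : ℕ} (hn : 25 * p.1.length ^ 3 * Module.finrank ℚ K * (A + T * lsize p) < n) {ρ : 𝓞 K}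
    (hρ : ∀ φ : K →+* ℂ, ‖φ ρ‖ ≤ (2 * w φ) ^ n)
    (h0 : (c : K) ^ n * (u (j + T * n) : K) = ((D : K) ^ l) ^ n * ρ) :
    s n = 0 ∧ t n = 0 ∧ r n = ρ := by
  obtain ⟨h1, h2, h3, h4, h5⟩ := hu
  set d := p.1.length with hd
  have hl1 : 1 ≤ lsize p := by unfold lsize; omega
  set L := d * (A + T * lsize p) with hL
  have hTl : 1 ≤ T * lsize p := Nat.one_le_iff_ne_zero.2 (by positivity)
  have hL1 : 1 ≤ L := Nat.one_le_iff_ne_zero.2 (by positivity)
  have hAL : A + T * lsize p ≤ L := Nat.le_mul_of_pos_left _ h2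
  have hsz : (size p : ℝ) ≤ 2 ^ lsize p := by exact_mod_cast size_le p
  refine H.zero (L := L) hL1 (fun φ => ?_) (fun φ z hz => ?_) hs ht hr
    (y := fun n => c ^ n * (u (j + T * n) : 𝓞 K)) (N := d) (by omega) (fun φ i hi => ?_)
    (fun i => ?_) ?_ hρ ?_
  · have hp : (2 : ℝ) ^ A ≤ 2 ^ L := pow_le_pow_right₀ (by norm_num) (by omega)
    exact ⟨(hA φ).2.1.trans hp, (hA φ).2.2.1.trans hp, (hA φ).2.2.2.trans hp⟩
  · obtain ⟨x, hx, rfl⟩ := hroots φ z hz
    rw [norm_mul, norm_pow]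
    calc ‖φ c‖ * ‖x‖ ^ T ≤ 2 ^ A * (2 ^ lsize p) ^ T :=
          mul_le_mul (hA φ).1 (pow_le_pow_left₀ (norm_nonneg _)
            ((root_bound h2 hx).trans hsz) T) (by positivity) (by positivity)
      _ = 2 ^ (A + T * lsize p) := by rw [← pow_mul, ← pow_add, mul_comm T]
      _ ≤ 2 ^ L := pow_le_pow_right₀ (by norm_num) hAL
  · show ‖φ ((c ^ i * (u (j + T * i) : 𝓞 K) : 𝓞 K) : K)‖ ≤ 2 ^ L
    have e1 : ((c ^ i * (u (j + T * i) : 𝓞 K) : 𝓞 K) : K) = (c : K) ^ i * (u (j + T * i) : K) := by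
      push_cast
      rfl
    rw [e1, map_mul, map_pow, map_intCast, norm_mul, norm_pow, Complex.norm_intCast]
    have h6 : |((u (j + T * i) : ℤ) : ℝ)| ≤ (2 ^ lsize p) ^ (T * d) := by
      have h7 := val_bound ⟨h1, h2, h3, h4, h5⟩ (j + T * i)
      have h8 : |((u (j + T * i) : ℤ) : ℝ)| = ((u (j + T * i)).natAbs : ℝ) := by
        rw [Nat.cast_natAbs, Int.cast_abs]
      rw [h8]
      have h9 : ((u (j + T * i)).natAbs : ℝ) ≤ (size p : ℝ) ^ (j + T * i + 1) := by
        exact_mod_cast h7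
      refine h9.trans ?_
      have hs1 : (1 : ℝ) ≤ size p := by exact_mod_cast size_pos h2
      refine (pow_le_pow_right₀ hs1 ?_).trans (pow_le_pow_left₀ (by positivity) hsz _)
      have : T * (i + 1) ≤ T * d := Nat.mul_le_mul_left T hi
      have h10 : T * (i + 1) = T * i + T := by ring
      omega
    calc ‖φ c‖ ^ i * |((u (j + T * i) : ℤ) : ℝ)| ≤ (2 ^ A) ^ d * (2 ^ lsize p) ^ (T * d) := by
          refine mul_le_mul ?_ h6 (abs_nonneg _) (by positivity)
          exact (pow_le_pow_left₀ (norm_nonneg _) (hA φ).1 i).trans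
            (pow_le_pow_right₀ (one_le_pow₀ (by norm_num)) (by omega))
      _ = 2 ^ L := by
          rw [← pow_mul, ← pow_mul, ← pow_add, hL]
          congr 1
          ring
  · rw [← hy i]
    push_cast
    rfl
  · refine lt_of_le_of_lt (le_of_eq ?_) hn
    rw [hL]
    ring
  · apply RingOfIntegers.coe_injective
    have e1 : algebraMap (𝓞 K) K (c ^ n * (u (j + T * n) : 𝓞 K)) =
        (c : K) ^ n * (u (j + T * n) : K) := by
      push_cast
      rfl
    rw [e1, h0]
    push_cast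
    rfl

end Pool.Agent.Work.MP_8d13b5_lc.Pd
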