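import Pool.Agent.Work.MP_8d13b5_lc.Pd.Core
import Pool.Agent.Work.MP_8d13b5_lc.Pd.Sol

set_option autoImplicit false

/-! Linear algebra: from the values of a recurrence sequence to its three parts. -/

namespace Pool.Agent.Work.MP_8d13b5_lc.Pd

open Polynomial Finset

/-- the hypotheses over a domain `R` with a family of embeddings -/
structure Setup {ι : Type*} [Fintype ι] {R : Type*} [CommRing R] (Φ : ι → (R →+* ℂ))
    (f g q : R[X]) (β β' D e : R) (l m : ℕ) (a w Z : ι → ℝ) (G : ℝ) : Prop where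
  loc : Loc Φ β β' e l m (fun j => 2 * a j) (fun j => 2 * w j) Z G
  fm : f.Monic
  gm : g.Monic
  qm : q.Monic
  f0 : f.coeff 0 ≠ 0
  g0 : g.coeff 0 ≠ 0
  q0 : q.coeff 0 ≠ 0
  hl : 1 ≤ l
  hlm : l < 2 * m
  diff : β' - β = D ^ m * e
  ne : β ≠ β'
  cop : IsCoprime D β'
  a1 : ∀ j, 1 ≤ a j
  ha : ∀ j, ∀ z ∈ (f.map (Φ j)).roots, ‖z‖ ≤ a j
  w1 : ∀ j, 1 ≤ w j
  hw : ∀ j, ∀ z ∈ (q.map (Φ j)).roots, ‖z‖ ≤ w j

variable {ι : Type*} [Fintype ι] {R : Type*} [CommRing R] {Φ : ι → (R →+* ℂ)}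
    {f g q : R[X]} {β β' D e : R} {l m : ℕ} {a w Z : ι → ℝ} {G : ℝ}

/-- the three parts over `R` -/
theorem Setup.parts [IsDomain R] [Nonempty ι] (H : Setup Φ f g q β β' D e l m a w Z G)
    {s t r : ℕ → R} (hs : Sol f s) (hr : Sol q r) {U : ℝ} (hU : 1 ≤ U)
    (hs0 : ∀ j, ∀ i < f.natDegree, ‖Φ j (s i)‖ ≤ U)
    (hr0 : ∀ j, ∀ i < q.natDegree, ‖Φ j (r i)‖ ≤ U) {N : ℕ} (hfN : f.natDegree ≤ N)
    (hqN : q.natDegree ≤ N) {n : ℕ}
    (heq : β ^ n * s n + β' ^ n * t n + D ^ (l * n) * r n = 0)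
    (hbig : 8 * (U * 2 ^ N) * G ^ 8 < 2 ^ n) :
    s n = 0 ∧ t n = 0 ∧ r n = 0 := by
  have hU0 : 0 ≤ U := by linarith
  refine core H.loc H.hl H.hlm H.diff H.ne H.cop (S := U * 2 ^ N)
    (one_le_mul_of_one_le_of_one_le hU (one_le_pow₀ (by norm_num))) ?_ ?_ heq hbig
  · intro j
    refine (growth_ring (H.a1 j) (Φ j) H.fm (H.ha j) hs hU0 (hs0 j) n).trans ?_
    have ha := H.a1 j
    apply mul_le_mul_of_nonneg_right _ (by positivity)
    exact mul_le_mul_of_nonneg_left (pow_le_pow_right₀ (by norm_num) hfN) hU0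
  · intro j
    refine (growth_ring (H.w1 j) (Φ j) H.qm (H.hw j) hr hU0 (hr0 j) n).trans ?_
    have hw := H.w1 j
    apply mul_le_mul_of_nonneg_right _ (by positivity)
    exact mul_le_mul_of_nonneg_left (pow_le_pow_right₀ (by norm_num) hqN) hU0

section matrix

/-- index set of the three blocks -/
abbrev Ix (f g q : R[X]) : Type := Fin f.natDegree ⊕ Fin g.natDegree ⊕ Fin q.natDegree

/-- the coefficient vector of the `n`-th term -/
noncomputable def ent (f g q : R[X]) (β β' D : R) (l n : ℕ) : Ix f g q → R :=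
  Sum.elim (fun c => β ^ n * cf f n c)
    (Sum.elim (fun c => β' ^ n * cf g n c) (fun c => (D ^ l) ^ n * cf q n c))

/-- numbering of the rows -/
noncomputable def row (f g q : R[X]) (i : Ix f g q) : ℕ := (Fintype.equivFin (Ix f g q) i : ℕ)

/-- the matrix -/
noncomputable def mat (f g q : R[X]) (β β' D : R) (l : ℕ) : Matrix (Ix f g q) (Ix f g q) R :=
  fun i j => ent f g q β β' D l (row f g q i) j

theorem card_Ix (f g q : R[X]) : Fintype.card (Ix f g q) = f.natDegree + (g.natDegree + q.natDegree) := by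
  simp [Ix]

theorem row_lt (i : Ix f g q) : row f g q i < f.natDegree + (g.natDegree + q.natDegree) := by
  rw [← card_Ix]
  exact (Fintype.equivFin (Ix f g q) i).2

theorem exists_row {n : ℕ} (hn : n < f.natDegree + (g.natDegree + q.natDegree)) :
    ∃ i : Ix f g q, row f g q i = n := by
  rw [← card_Ix] at hn
  refine ⟨(Fintype.equivFin (Ix f g q)).symm ⟨n, hn⟩, ?_⟩
  unfold row
  rw [Equiv.apply_symm_apply]

/-- the three sequences attached to a coefficient vector, over an algebra -/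
theorem ent_sum (v : Ix f g q → R) (n : ℕ) :
    ∑ j, ent f g q β β' D l n j * v j =
      β ^ n * (∑ c : Fin f.natDegree, cf f n c * v (Sum.inl c)) +
      β' ^ n * (∑ c : Fin g.natDegree, cf g n c * v (Sum.inr (Sum.inl c))) +
      D ^ (l * n) * (∑ c : Fin q.natDegree, cf q n c * v (Sum.inr (Sum.inr c))) := by
  rw [Fintype.sum_sum_type, Fintype.sum_sum_type, mul_sum, mul_sum, mul_sum, add_assoc, pow_mul]
  simp only [ent, Sum.elim_inl, Sum.elim_inr, mul_assoc]

/-- extension of a vector indexed by `Fin k` by zero -/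
def ext {k : ℕ} (v : Fin k → R) (c : ℕ) : R := if h : c < k then v ⟨c, h⟩ else 0

theorem sum_ext {f : R[X]} (v : Fin f.natDegree → R) (n : ℕ) :
    ∑ c : Fin f.natDegree, cf f n c * v c = ∑ c ∈ range f.natDegree, cf f n c * ext v c := by
  rw [Finset.sum_range]
  refine sum_congr rfl fun c _ => ?_
  unfold ext
  rw [dif_pos c.2]

theorem prod_natDegree (hf : f.Monic) (hg : g.Monic) (hq : q.Monic) [Nontrivial R] (b b' d : R) :
    (f.scaleRoots b * (g.scaleRoots b' * q.scaleRoots d)).natDegree =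
      f.natDegree + (g.natDegree + q.natDegree) := by
  rw [(monic_scaleRoots hf b).natDegree_mul
      ((monic_scaleRoots hg b').mul (monic_scaleRoots hq d)),
    (monic_scaleRoots hg b').natDegree_mul (monic_scaleRoots hq d), natDegree_scaleRoots,
    natDegree_scaleRoots, natDegree_scaleRoots]

theorem prod_monic (hf : f.Monic) (hg : g.Monic) (hq : q.Monic) (b b' d : R) :
    (f.scaleRoots b * (g.scaleRoots b' * q.scaleRoots d)).Monic :=
  (monic_scaleRoots hf b).mul ((monic_scaleRoots hg b').mul (monic_scaleRoots hq d))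

/-- the combination of three solutions is annihilated by the product -/
theorem sol_prod {s t r : ℕ → R} (hs : Sol f s) (ht : Sol g t) (hr : Sol q r) :
    Sol (f.scaleRoots β * (g.scaleRoots β' * q.scaleRoots (D ^ l)))
      (fun n => β ^ n * s n + β' ^ n * t n + D ^ (l * n) * r n) := by
  have h1 := (hs.scale β).mul_right (g.scaleRoots β' * q.scaleRoots (D ^ l))
  have h2 := ((ht.scale β').mul_right (q.scaleRoots (D ^ l))).mul_left (f.scaleRoots β)
  have h3 := ((hr.scale (D ^ l)).mul_left (g.scaleRoots β')).mul_left (f.scaleRoots β)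
  have h4 := (h1.add h2).add h3
  refine (sol_iff _ _).2 ?_
  rw [sol_iff] at h4
  convert h4 using 2
  funext n
  rw [pow_mul]

theorem exists_bound (Φ : ι → (R →+* ℂ)) {κ : Type*} [Finite κ] (v : κ → R) :
    ∃ U : ℝ, 1 ≤ U ∧ ∀ j, ∀ i, ‖Φ j (v i)‖ ≤ U := by
  cases nonempty_fintype κ
  refine ⟨1 + ∑ j, ∑ i, ‖Φ j (v i)‖, ?_, fun j i => ?_⟩
  · have : 0 ≤ ∑ j, ∑ i, ‖Φ j (v i)‖ :=
      sum_nonneg fun _ _ => sum_nonneg fun _ _ => norm_nonneg _
    linarith
  · have h1 : ‖Φ j (v i)‖ ≤ ∑ i, ‖Φ j (v i)‖ :=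
      single_le_sum (f := fun i => ‖Φ j (v i)‖) (fun _ _ => norm_nonneg _) (mem_univ i)
    have h2 : ∑ i, ‖Φ j (v i)‖ ≤ ∑ j, ∑ i, ‖Φ j (v i)‖ :=
      single_le_sum (f := fun j => ∑ i, ‖Φ j (v i)‖)
        (fun _ _ => sum_nonneg fun _ _ => norm_nonneg _) (mem_univ j)
    linarith

theorem Setup.det_ne_zero [IsDomain R] [Nonempty ι]
    (H : Setup Φ f g q β β' D e l m a w Z G) : (mat f g q β β' D l).det ≠ 0 := by
  classical
  intro hdet
  obtain ⟨v, hv0, hv⟩ := Matrix.exists_mulVec_eq_zero_iff.2 hdet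
  set s : ℕ → R := fun n => ∑ c ∈ range f.natDegree, cf f n c * ext (fun c => v (Sum.inl c)) c
    with hsdef
  set t : ℕ → R := fun n => ∑ c ∈ range g.natDegree,
    cf g n c * ext (fun c => v (Sum.inr (Sum.inl c))) c with htdef
  set r : ℕ → R := fun n => ∑ c ∈ range q.natDegree,
    cf q n c * ext (fun c => v (Sum.inr (Sum.inr c))) c with hrdef
  have hs : Sol f s := sol_of_init H.fm _
  have ht : Sol g t := sol_of_init H.gm _
  have hr : Sol q r := sol_of_init H.qm _
  have hy := sol_prod (β := β) (β' := β') (D := D) (l := l) hs ht hr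
  have hy0 : ∀ n, β ^ n * s n + β' ^ n * t n + D ^ (l * n) * r n = 0 := by
    apply hy.eq_zero (prod_monic H.fm H.gm H.qm _ _ _)
    intro i hi
    rw [prod_natDegree H.fm H.gm H.qm] at hi
    obtain ⟨j, hj⟩ := exists_row hi
    have h1 : ∑ x, mat f g q β β' D l j x * v x = 0 := congrFun hv j
    have h2 : ∑ x, ent f g q β β' D l i x * v x = 0 := by
      rw [← h1]
      refine sum_congr rfl fun x _ => ?_
      rw [mat, hj]
    rw [ent_sum] at h2
    rw [← h2, sum_ext, sum_ext, sum_ext]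
  obtain ⟨U, hU1, hU⟩ := exists_bound Φ v
  have hsi : ∀ i (hi : i < f.natDegree), s i = v (Sum.inl ⟨i, hi⟩) := by
    intro i hi
    rw [hsdef]
    simp only
    rw [init_of_init H.fm _ hi]
    unfold ext
    rw [dif_pos hi]
  have hti : ∀ i (hi : i < g.natDegree), t i = v (Sum.inr (Sum.inl ⟨i, hi⟩)) := by
    intro i hi
    rw [htdef]
    simp only
    rw [init_of_init H.gm _ hi]
    unfold ext
    rw [dif_pos hi]
  have hri : ∀ i (hi : i < q.natDegree), r i = v (Sum.inr (Sum.inr ⟨i, hi⟩)) := by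
    intro i hi
    rw [hrdef]
    simp only
    rw [init_of_init H.qm _ hi]
    unfold ext
    rw [dif_pos hi]
  set N := f.natDegree + q.natDegree with hN
  obtain ⟨n₀, hn₀⟩ := pow_unbounded_of_one_lt (8 * (U * 2 ^ N) * G ^ 8)
    (one_lt_two (α := ℝ))
  have hzero : ∀ n, n₀ ≤ n → s n = 0 ∧ t n = 0 ∧ r n = 0 := by
    intro n hn
    refine H.parts hs hr hU1 (fun j i hi => ?_) (fun j i hi => ?_) (N := N) (by omega)
      (by omega) (hy0 n) (hn₀.trans_le (pow_le_pow_right₀ (by norm_num) hn))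
    · rw [hsi i hi]
      exact hU j _
    · rw [hri i hi]
      exact hU j _
  have hs0 := hs.zero_of_eventually H.f0 (fun n hn => (hzero n hn).1)
  have ht0 := ht.zero_of_eventually H.g0 (fun n hn => (hzero n hn).2.1)
  have hr0 := hr.zero_of_eventually H.q0 (fun n hn => (hzero n hn).2.2)
  apply hv0
  funext j
  rcases j with j | j | j
  · rw [← hsi j j.2, hs0]; rfl
  · rw [← hti j j.2, ht0]; rfl
  · rw [← hri j j.2, hr0]; rfl

theorem adj_bound {κ : Type*} [Fintype κ] [DecidableEq κ] (M : Matrix κ κ R) (φ : R →+* ℂ) {x : ℝ}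
    (hx1 : 1 ≤ x) (hx : ∀ i j, ‖φ (M i j)‖ ≤ x) (i j : κ) :
    ‖φ (M.adjugate i j)‖ ≤ (Fintype.card κ).factorial * x ^ Fintype.card κ := by
  rw [Matrix.adjugate_apply, RingHom.map_det]
  have := Matrix.det_le (abv := NormedField.toAbsoluteValue ℂ) (x := x)
    (A := φ.mapMatrix (M.updateRow j (Pi.single i 1))) ?_
  · rw [nsmul_eq_mul] at this
    exact this
  · intro k k'
    show ‖φ (M.updateRow j (Pi.single i 1) k k')‖ ≤ x
    by_cases hk : k = j
    · rw [hk, Matrix.updateRow_self]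
      by_cases hk' : k' = i
      · rw [hk', Pi.single_eq_same, map_one, norm_one]
        exact hx1
      · rw [Pi.single_eq_of_ne hk', map_zero, norm_zero]
        linarith
    · rw [Matrix.updateRow_ne hk]
      exact hx k k'

end matrix

end Pool.Agent.Work.MP_8d13b5_lc.Pd
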