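import Mathlib

set_option autoImplicit false

/-! Pade approximants (homogeneous form) to the function `x ^ n` at `x = 1`. -/

namespace Pool.Agent.Work.MP_8d13b5_lc.Pd

open Polynomial Finset

/-- the coefficients of the remainder polynomial -/
def fN (n k j : ℕ) : ℤ := ((n - 1 - j).choose k : ℤ) * ((k + j).choose k : ℤ)

/-- the remainder polynomial -/
noncomputable def E (n k : ℕ) : ℤ[X] := ∑ j ∈ range (n - k), C (fN n k j) * X ^ j

noncomputable def G (n k : ℕ) : ℤ[X] := (1 - X) ^ (2 * k + 1) * E n k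

noncomputable def A (n k : ℕ) : ℤ[X] := ∑ i ∈ range (k + 1), C ((G n k).coeff i) * X ^ i

noncomputable def B (n k : ℕ) : ℤ[X] := ∑ i ∈ range (k + 1), C (-(G n k).coeff (n + i)) * X ^ i

theorem E_coeff {n k j : ℕ} (hj : j < n) : (E n k).coeff j = fN n k j := by
  unfold E
  rw [finsetSum_coeff]
  simp only [coeff_C_mul_X_pow]
  by_cases h : j < n - k
  · rw [sum_eq_single j]
    · simp
    · intro b _ hb
      rw [if_neg (fun h' => hb h'.symm)]
    · intro h'
      exact absurd (mem_range.2 h) h'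
  · rw [sum_eq_zero]
    · unfold fN
      rw [Nat.choose_eq_zero_of_lt (by omega)]
      simp
    · intro b hb
      rw [if_neg]
      rintro rfl
      exact h (mem_range.1 hb)

theorem E_coeff_ge {n k j : ℕ} (hj : n - k ≤ j) : (E n k).coeff j = 0 := by
  unfold E
  rw [finsetSum_coeff]
  simp only [coeff_C_mul_X_pow]
  refine sum_eq_zero fun b hb => ?_
  rw [if_neg]
  rintro rfl
  have := mem_range.1 hb
  omega

theorem E_natDegree (n k : ℕ) : (E n k).natDegree ≤ n - k - 1 := by
  rw [natDegree_le_iff_coeff_eq_zero]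
  intro j hj
  exact E_coeff_ge (by omega)

theorem one_sub_X_pow_coeff (N m : ℕ) :
    ((1 - X : ℤ[X]) ^ N).coeff m = (-1) ^ m * (N.choose m : ℤ) := by
  have h : (1 - X : ℤ[X]) ^ N = C ((-1) ^ N) * (X + C (-1)) ^ N := by
    rw [C_pow, ← mul_pow]
    congr 1
    simp
    ring
  rw [h, coeff_C_mul, coeff_X_add_C_pow]
  by_cases hm : m ≤ N
  · obtain ⟨r, rfl⟩ := Nat.exists_eq_add_of_le hm
    rw [Nat.add_sub_cancel_left, ← mul_assoc, ← pow_add]
    have : (-1 : ℤ) ^ (m + r + r) = (-1) ^ m := by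
      rw [add_assoc, pow_add, ← two_mul, pow_mul]
      simp
    rw [this]
  · rw [Nat.choose_eq_zero_of_lt (by omega)]
    simp

theorem G_coeff (n k i : ℕ) : (G n k).coeff i =
    ∑ m ∈ range (i + 1), (-1) ^ m * ((2 * k + 1).choose m : ℤ) * (E n k).coeff (i - m) := by
  unfold G
  rw [coeff_mul, Nat.sum_antidiagonal_eq_sum_range_succ
    (fun a b => ((1 - X : ℤ[X]) ^ (2 * k + 1)).coeff a * (E n k).coeff b)]
  refine sum_congr rfl fun m _ => ?_
  rw [one_sub_X_pow_coeff]

/-- the polynomial interpolating `fN` -/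
noncomputable def q (n k : ℕ) : ℚ[X] :=
  (ascPochhammer ℚ k).comp (X + 1) * (descPochhammer ℚ k).comp (C ((n : ℚ) - 1) - X)

theorem q_natDegree (n k : ℕ) : (q n k).natDegree < 2 * k + 1 := by
  unfold q
  have h1 : ((ascPochhammer ℚ k).comp (X + 1)).natDegree ≤ k := by
    refine natDegree_comp_le.trans ?_
    rw [ascPochhammer_natDegree]
    have : (X + 1 : ℚ[X]).natDegree ≤ 1 := by
      refine (natDegree_add_le _ _).trans ?_
      simp
    calc k * (X + 1 : ℚ[X]).natDegree ≤ k * 1 := Nat.mul_le_mul_left _ this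
      _ = k := by ring
  have h2 : ((descPochhammer ℚ k).comp (C ((n : ℚ) - 1) - X)).natDegree ≤ k := by
    refine natDegree_comp_le.trans ?_
    rw [descPochhammer_natDegree]
    have : (C ((n : ℚ) - 1) - X : ℚ[X]).natDegree ≤ 1 := by
      refine (natDegree_sub_le _ _).trans ?_
      rw [natDegree_C, natDegree_X]
      simp
    calc k * (C ((n : ℚ) - 1) - X : ℚ[X]).natDegree ≤ k * 1 := Nat.mul_le_mul_left _ this
      _ = k := by ring
  have h3 := natDegree_mul_le (p := (ascPochhammer ℚ k).comp (X + 1))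
    (q := (descPochhammer ℚ k).comp (C ((n : ℚ) - 1) - X))
  omega

theorem q_eval_nat {n k j : ℕ} (hj : j < n) :
    (q n k).eval (j : ℚ) = ((k.factorial : ℚ) ^ 2) * (fN n k j : ℚ) := by
  unfold q fN
  rw [eval_mul, eval_comp, eval_comp]
  have e1 : (X + 1 : ℚ[X]).eval (j : ℚ) = ((j + 1 : ℕ) : ℚ) := by simp
  have e2 : (C ((n : ℚ) - 1) - X : ℚ[X]).eval (j : ℚ) = ((n - 1 - j : ℕ) : ℚ) := by
    have : ((n - 1 - j : ℕ) : ℚ) = (n : ℚ) - 1 - j := by
      rw [Nat.sub_sub, Nat.cast_sub (by omega)]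
      push_cast
      ring
    rw [this]
    simp
  rw [e1, e2, descPochhammer_eval_eq_descFactorial]
  have e3 : (ascPochhammer ℚ k).eval ((j + 1 : ℕ) : ℚ) = ((j + 1).ascFactorial k : ℚ) := by
    rw [← ascPochhammer_nat_eq_ascFactorial]
    rw [ascPochhammer_eval_cast]
  rw [e3, Nat.ascFactorial_eq_factorial_mul_choose, Nat.descFactorial_eq_factorial_mul_choose]
  push_cast
  rw [add_comm j k]
  ring

theorem q_eval_neg {n k l : ℕ} (h1 : 1 ≤ l) (h2 : l ≤ k) : (q n k).eval (-(l : ℚ)) = 0 := by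
  unfold q
  rw [eval_mul, eval_comp]
  have e1 : (X + 1 : ℚ[X]).eval (-(l : ℚ)) = -((l - 1 : ℕ) : ℚ) := by
    rw [Nat.cast_sub h1]
    simp
    ring
  rw [e1, ascPochhammer_eval_neg_coe_nat_of_lt (by omega), zero_mul]

open scoped fwdDiff in
theorem q_diff (n k : ℕ) (y : ℚ) :
    ∑ m ∈ range (2 * k + 2), (-1 : ℚ) ^ m * ((2 * k + 1).choose m : ℚ) * (q n k).eval (y - m) = 0 := by
  have h := congrFun (Polynomial.fwdDiff_iter_eq_zero_of_degree_lt (q_natDegree n k))
    (y - (2 * k + 1 : ℕ))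
  rw [fwdDiff_iter_eq_sum_shift] at h
  rw [← sum_range_reflect] at h
  rw [Pi.zero_apply] at h
  rw [← h]
  refine sum_congr rfl fun m hm => ?_
  rw [mem_range] at hm
  have hm' : 2 * k + 1 + 1 - 1 - m = 2 * k + 1 - m := by omega
  rw [hm']
  have h2 : 2 * k + 1 - (2 * k + 1 - m) = m := by omega
  rw [h2, Nat.choose_symm (by omega)]
  have h3 : y - ((2 * k + 1 : ℕ) : ℚ) + (2 * k + 1 - m) • (1 : ℚ) = y - m := by
    rw [nsmul_eq_mul, mul_one, Nat.cast_sub (by omega)]
    ring
  rw [h3, zsmul_eq_mul]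
  push_cast
  ring

theorem G_mid {n k i : ℕ} (h1 : k < i) (h2 : i < n) : (G n k).coeff i = 0 := by
  have key : ((k.factorial : ℚ) ^ 2) * ((G n k).coeff i : ℚ) = 0 := by
    rw [G_coeff]
    have hd := q_diff n k (i : ℚ)
    have hA : ∑ m ∈ range (i + 2 * k + 2), (-1 : ℚ) ^ m * ((2 * k + 1).choose m : ℚ) *
        (q n k).eval ((i : ℚ) - m) = 0 := by
      rw [← hd]
      symm
      refine sum_subset (fun x hx => ?_) ?_
      · rw [mem_range] at hx ⊢
        omega
      · intro m _ hm
        rw [mem_range, not_lt] at hm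
        rw [Nat.choose_eq_zero_of_lt (by omega)]
        simp
    have hB : ∑ m ∈ range (i + 1), (-1 : ℚ) ^ m * ((2 * k + 1).choose m : ℚ) *
        (q n k).eval ((i : ℚ) - m) = 0 := by
      rw [← hA]
      refine sum_subset (fun x hx => ?_) ?_
      · rw [mem_range] at hx ⊢
        omega
      · intro m _ hm
        rw [mem_range, not_lt] at hm
        by_cases hm2 : m < 2 * k + 2
        · have e : (i : ℚ) - m = -((m - i : ℕ) : ℚ) := by
            rw [Nat.cast_sub (by omega)]
            ring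
          rw [e, q_eval_neg (by omega) (by omega), mul_zero]
        · rw [Nat.choose_eq_zero_of_lt (by omega)]
          simp
    push_cast
    rw [mul_sum, ← hB]
    refine sum_congr rfl fun m hm => ?_
    rw [mem_range] at hm
    have e : (i : ℚ) - m = ((i - m : ℕ) : ℚ) := by
      rw [Nat.cast_sub (by omega)]
    rw [e, q_eval_nat (by omega), E_coeff (by omega)]
    ring
  have hk : ((k.factorial : ℚ) ^ 2) ≠ 0 := by positivity
  have := (mul_eq_zero.1 key).resolve_left hk
  exact_mod_cast this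

theorem G_natDegree {n k : ℕ} (h : k < n) : (G n k).natDegree ≤ n + k := by
  unfold G
  have h1 : ((1 - X : ℤ[X]) ^ (2 * k + 1)).natDegree ≤ 2 * k + 1 := by
    refine natDegree_pow_le.trans ?_
    have : (1 - X : ℤ[X]).natDegree ≤ 1 := by
      refine (natDegree_sub_le _ _).trans ?_
      simp
    calc (2 * k + 1) * (1 - X : ℤ[X]).natDegree ≤ (2 * k + 1) * 1 := Nat.mul_le_mul_left _ this
      _ = 2 * k + 1 := by ring
  have h2 := E_natDegree n k
  have h3 := natDegree_mul_le (p := (1 - X : ℤ[X]) ^ (2 * k + 1)) (q := E n k)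
  omega

theorem A_coeff {n k i : ℕ} : (A n k).coeff i = if i < k + 1 then (G n k).coeff i else 0 := by
  unfold A
  rw [finsetSum_coeff]
  simp only [coeff_C_mul_X_pow]
  split_ifs with h
  · rw [sum_eq_single i]
    · simp
    · intro b _ hb
      rw [if_neg (fun h' => hb h'.symm)]
    · intro h'
      exact absurd (mem_range.2 h) h'
  · refine sum_eq_zero fun b hb => ?_
    rw [if_neg]
    rintro rfl
    exact h (mem_range.1 hb)

theorem B_coeff {n k i : ℕ} :
    (B n k).coeff i = if i < k + 1 then -(G n k).coeff (n + i) else 0 := by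
  unfold B
  rw [finsetSum_coeff]
  simp only [coeff_C_mul_X_pow]
  split_ifs with h
  · rw [sum_eq_single i]
    · simp
    · intro b _ hb
      rw [if_neg (fun h' => hb h'.symm)]
    · intro h'
      exact absurd (mem_range.2 h) h'
  · refine sum_eq_zero fun b hb => ?_
    rw [if_neg]
    rintro rfl
    exact h (mem_range.1 hb)

theorem A_natDegree (n k : ℕ) : (A n k).natDegree ≤ k := by
  rw [natDegree_le_iff_coeff_eq_zero]
  intro j hj
  rw [A_coeff, if_neg (by omega)]

theorem B_natDegree (n k : ℕ) : (B n k).natDegree ≤ k := by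
  rw [natDegree_le_iff_coeff_eq_zero]
  intro j hj
  rw [B_coeff, if_neg (by omega)]

theorem G_eq {n k : ℕ} (h : k < n) : G n k = A n k - X ^ n * B n k := by
  ext i
  rw [coeff_sub, coeff_X_pow_mul', A_coeff]
  by_cases h1 : i < k + 1
  · rw [if_pos h1, if_neg (by omega), sub_zero]
  · rw [if_neg h1]
    by_cases h2 : n ≤ i
    · rw [if_pos h2, B_coeff]
      by_cases h3 : i - n < k + 1
      · rw [if_pos h3]
        have : n + (i - n) = i := by omega
        rw [this]
        ring
      · rw [if_neg h3]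
        rw [coeff_eq_zero_of_natDegree_lt (lt_of_le_of_lt (G_natDegree h) (by omega))]
        ring
    · rw [if_neg h2, G_mid (by omega) (by omega)]
      ring

/-- the basic identity -/
theorem pade {n k : ℕ} (h : k < n) :
    A n k - X ^ n * B n k = (1 - X) ^ (2 * k + 1) * E n k := (G_eq h).symm

end Pool.Agent.Work.MP_8d13b5_lc.Pd
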