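import Pool.Agent.Work.MP_8d13b5_lc.Pd.Poly

set_option autoImplicit false

/-! Bounds and non-vanishing for the Pade approximants. -/

namespace Pool.Agent.Work.MP_8d13b5_lc.Pd

open Polynomial Finset

theorem sum_choose_le (N t : ℕ) : ∑ m ∈ range t, (N.choose m) ≤ 2 ^ N := by
  have h1 : ∑ m ∈ range (t + (N + 1)), N.choose m = ∑ m ∈ range (N + 1), N.choose m := by
    symm
    refine sum_subset (fun x hx => ?_) ?_
    · rw [mem_range] at hx ⊢
      omega
    · intro m _ hm
      rw [mem_range, not_lt] at hm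
      exact Nat.choose_eq_zero_of_lt (by omega)
  rw [Nat.sum_range_choose] at h1
  rw [← h1]
  exact sum_le_sum_of_subset (fun x hx => by rw [mem_range] at hx ⊢; omega)

theorem fN_nonneg (n k j : ℕ) : 0 ≤ fN n k j := by
  unfold fN
  positivity

theorem fN_le {n k j : ℕ} (hj : j < n - k) : fN n k j ≤ 2 ^ (n + k - 1) := by
  unfold fN
  have h1 : (n - 1 - j).choose k ≤ 2 ^ (n - 1 - j) := Nat.choose_le_two_pow _ _
  have h2 : (k + j).choose k ≤ 2 ^ (k + j) := Nat.choose_le_two_pow _ _
  have h3 : (n - 1 - j).choose k * (k + j).choose k ≤ 2 ^ (n + k - 1) := by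
    calc (n - 1 - j).choose k * (k + j).choose k ≤ 2 ^ (n - 1 - j) * 2 ^ (k + j) :=
          Nat.mul_le_mul h1 h2
      _ = 2 ^ (n + k - 1) := by
          rw [← pow_add]
          congr 1
          omega
  exact_mod_cast h3

theorem E_coeff_abs (n k j : ℕ) : |(E n k).coeff j| ≤ 2 ^ (n + k - 1) := by
  by_cases h : j < n - k
  · rw [E_coeff (by omega), abs_of_nonneg (fN_nonneg _ _ _)]
    exact fN_le h
  · rw [E_coeff_ge (by omega), abs_zero]
    positivity

theorem G_coeff_abs {n k : ℕ} (hk : k < n) (i : ℕ) : |(G n k).coeff i| ≤ 2 ^ (n + 3 * k) := by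
  rw [G_coeff]
  refine (abs_sum_le_sum_abs _ _).trans ?_
  have h1 : ∀ m ∈ range (i + 1),
      |(-1) ^ m * ((2 * k + 1).choose m : ℤ) * (E n k).coeff (i - m)| ≤
        ((2 * k + 1).choose m : ℤ) * 2 ^ (n + k - 1) := by
    intro m _
    rw [abs_mul, abs_mul, abs_pow, abs_neg, abs_one, one_pow, one_mul, Nat.abs_cast]
    exact mul_le_mul_of_nonneg_left (E_coeff_abs _ _ _) (by positivity)
  refine (sum_le_sum h1).trans ?_
  rw [← sum_mul]
  have h2 := sum_choose_le (2 * k + 1) (i + 1)
  have h3 : (∑ m ∈ range (i + 1), ((2 * k + 1).choose m : ℤ)) ≤ 2 ^ (2 * k + 1) := by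
    exact_mod_cast h2
  calc (∑ m ∈ range (i + 1), ((2 * k + 1).choose m : ℤ)) * 2 ^ (n + k - 1)
      ≤ 2 ^ (2 * k + 1) * 2 ^ (n + k - 1) := mul_le_mul_of_nonneg_right h3 (by positivity)
    _ = 2 ^ (n + 3 * k) := by
        rw [← pow_add]
        congr 1
        omega

theorem A_coeff_abs {n k : ℕ} (hk : k < n) (i : ℕ) : |(A n k).coeff i| ≤ 2 ^ (n + 3 * k) := by
  rw [A_coeff]
  split_ifs
  · exact G_coeff_abs hk i
  · rw [abs_zero]
    positivity

theorem B_coeff_abs {n k : ℕ} (hk : k < n) (i : ℕ) : |(B n k).coeff i| ≤ 2 ^ (n + 3 * k) := by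
  rw [B_coeff]
  split_ifs
  · rw [abs_neg]
    exact G_coeff_abs hk _
  · rw [abs_zero]
    positivity

theorem E_coeff_zero_pos {n k : ℕ} (hk : k < n) : 0 < (E n k).coeff 0 := by
  rw [E_coeff (by omega)]
  unfold fN
  have h1 : 0 < (n - 1 - 0).choose k := Nat.choose_pos (by omega)
  have h2 : 0 < (k + 0).choose k := Nat.choose_pos (by omega)
  positivity

theorem E_ne_zero {n k : ℕ} (hk : k < n) : E n k ≠ 0 := by
  intro h
  have := E_coeff_zero_pos hk
  rw [h, coeff_zero] at this
  exact lt_irrefl _ this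

theorem E_eval_one {n k : ℕ} (hk : k < n) : 0 < (E n k).eval 1 := by
  unfold E
  rw [eval_finsetSum]
  refine sum_pos' (fun j _ => ?_) ⟨0, mem_range.2 (by omega), ?_⟩
  · simp [fN_nonneg]
  · have h1 := E_coeff_zero_pos hk
    rw [E_coeff (by omega)] at h1
    simpa using h1

/-- a polynomial with at most `m` terms has no zero of order `m` at `1` -/
theorem few_terms (m : ℕ) : ∀ P : ℤ[X], P.support.card ≤ m → (X - 1) ^ m ∣ P → P = 0 := by
  induction m with
  | zero =>
    intro P h _
    have : P.support = ∅ := Finset.card_eq_zero.1 (by omega)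
    rwa [Polynomial.support_eq_empty] at this
  | succ m ih =>
    intro P h hd
    by_contra hP
    obtain ⟨e, he⟩ := Finset.nonempty_iff_ne_empty.2
      (fun h' => hP (Polynomial.support_eq_empty.1 h'))
    set Q : ℤ[X] := X * derivative P - C (e : ℤ) * P with hQ
    have hc : ∀ i, Q.coeff i = ((i : ℤ) - e) * P.coeff i := by
      intro i
      rw [hQ, coeff_sub, coeff_C_mul]
      cases i with
      | zero => simp
      | succ i =>
        rw [coeff_X_mul, coeff_derivative]
        push_cast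
        ring
    have hs : Q.support ⊆ P.support.erase e := by
      intro i hi
      rw [Polynomial.mem_support_iff, hc] at hi
      rw [Finset.mem_erase, Polynomial.mem_support_iff]
      constructor
      · rintro rfl
        exact hi (by ring)
      · intro h'
        exact hi (by rw [h', mul_zero])
    have hcard : Q.support.card ≤ m := by
      have h1 := Finset.card_le_card hs
      rw [Finset.card_erase_of_mem he] at h1
      omega
    have hdv : (X - 1 : ℤ[X]) ^ m ∣ Q := by
      have h1 : (X - 1 : ℤ[X]) ^ (m + 1 - 1) ∣ derivative P :=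
        pow_sub_one_dvd_derivative_of_pow_dvd hd
      rw [Nat.add_sub_cancel] at h1
      exact dvd_sub (Dvd.dvd.mul_left h1 _)
        (Dvd.dvd.mul_left ((pow_dvd_pow _ (Nat.le_succ m)).trans hd) _)
    have hQ0 := ih Q hcard hdv
    have hP2 : P = C (P.coeff e) * X ^ e := by
      ext i
      rw [coeff_C_mul_X_pow]
      split_ifs with h1
      · rw [h1]
      · have h2 := hc i
        rw [hQ0, coeff_zero] at h2
        have h3 : ((i : ℤ) - e) ≠ 0 := by
          intro h4
          apply h1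
          have : (i : ℤ) = e := by linarith
          exact_mod_cast this
        exact (mul_eq_zero.1 h2.symm).resolve_left h3
    have h1 : (X - 1 : ℤ[X]) ∣ P := (dvd_pow_self _ (Nat.succ_ne_zero m)).trans hd
    obtain ⟨R, hR⟩ := h1
    have h2 := congrArg (Polynomial.eval 1) hR
    rw [hP2] at h2
    simp at h2
    rw [Polynomial.mem_support_iff] at he
    exact he h2

theorem X_sub_one_dvd {P : ℤ[X]} (h : P.eval 1 = 0) : (X - 1 : ℤ[X]) ∣ P := by
  have := dvd_iff_isRoot.2 (show P.IsRoot 1 from h)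
  rwa [C_1] at this

theorem quot_coeff {P R : ℤ[X]} {k : ℕ} (hP : P.natDegree ≤ k) (h : P = (X - 1) * R) :
    ∀ i, k ≤ i → R.coeff i = 0 := by
  intro i hi
  by_cases hR : R = 0
  · rw [hR, coeff_zero]
  · have h1 : P.natDegree = 1 + R.natDegree := by
      have h2 : (X - 1 : ℤ[X]) = X - C 1 := by rw [C_1]
      rw [h, h2, natDegree_mul (X_sub_C_ne_zero 1) hR, natDegree_X_sub_C]
    exact coeff_eq_zero_of_natDegree_lt (by omega)

theorem AB_eval_one {n k : ℕ} (hk : k < n) : (A n k).eval 1 = (B n k).eval 1 := by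
  have h := congrArg (Polynomial.eval 1) (pade hk)
  rw [eval_sub, eval_mul, eval_pow, eval_X, one_pow, one_mul, eval_mul, eval_pow, eval_sub,
    eval_one, eval_X, sub_self, zero_pow (by omega), zero_mul] at h
  linarith

theorem B_eval_one {n k : ℕ} (hk : k < n) : (B n k).eval 1 ≠ 0 := by
  intro hB
  have hA : (A n k).eval 1 = 0 := by rw [AB_eval_one hk, hB]
  obtain ⟨A1, hA1⟩ := X_sub_one_dvd hA
  obtain ⟨B1, hB1⟩ := X_sub_one_dvd hB
  have hid := pade hk
  have h1 : (X - 1 : ℤ[X]) * (A1 - X ^ n * B1) = (X - 1) * (-((X - 1) ^ (2 * k) * E n k)) := by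
    have h2 : (1 - X : ℤ[X]) ^ (2 * k + 1) = -(X - 1) ^ (2 * k + 1) := by
      rw [← Odd.neg_pow (by exact ⟨k, rfl⟩)]
      ring
    rw [hA1, hB1, h2] at hid
    linear_combination hid
  have hX : (X - 1 : ℤ[X]) ≠ 0 := by
    rw [← C_1]
    exact X_sub_C_ne_zero 1
  have h3 := mul_left_cancel₀ hX h1
  have hdv : (X - 1 : ℤ[X]) ^ (2 * k) ∣ A1 - X ^ n * B1 := by
    rw [h3]
    exact (Dvd.intro _ rfl).neg_right
  have ha := quot_coeff (A_natDegree n k) hA1
  have hb := quot_coeff (B_natDegree n k) hB1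
  have hsup : (A1 - X ^ n * B1).support ⊆ range k ∪ (range k).image (fun i => n + i) := by
    intro i hi
    rw [Polynomial.mem_support_iff, coeff_sub, coeff_X_pow_mul'] at hi
    rw [mem_union, mem_image]
    by_contra hcon
    rw [not_or] at hcon
    apply hi
    rw [ha i (by have := hcon.1; rw [mem_range] at this; omega), zero_sub, neg_eq_zero]
    split_ifs with h4
    · apply hb
      by_contra h5
      exact hcon.2 ⟨i - n, mem_range.2 (by omega), by omega⟩
    · rfl
  have hcard : (A1 - X ^ n * B1).support.card ≤ 2 * k := by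
    refine (Finset.card_le_card hsup).trans ((Finset.card_union_le _ _).trans ?_)
    have := Finset.card_image_le (s := range k) (f := fun i => n + i)
    rw [card_range] at this ⊢
    omega
  have h0 := few_terms (2 * k) _ hcard hdv
  rw [h0] at h3
  have h5 : (X - 1 : ℤ[X]) ^ (2 * k) * E n k = 0 := by
    rw [← neg_eq_zero, ← h3]
  rcases mul_eq_zero.1 h5 with h6 | h6
  · exact pow_ne_zero _ hX h6
  · exact E_ne_zero hk h6

theorem det_eq {n k : ℕ} (hk : k + 1 < n) : ∃ c : ℤ, c ≠ 0 ∧
    A n k * B n (k + 1) - A n (k + 1) * B n k = C c * (1 - X) ^ (2 * k + 1) := by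
  set Q := E n k * B n (k + 1) - (1 - X) ^ 2 * E n (k + 1) * B n k with hQ
  have h1 : A n k * B n (k + 1) - A n (k + 1) * B n k = (1 - X) ^ (2 * k + 1) * Q := by
    have e1 := pade (n := n) (k := k) (by omega)
    have e2 := pade (n := n) (k := k + 1) hk
    have e3 : (1 - X : ℤ[X]) ^ (2 * (k + 1) + 1) = (1 - X) ^ (2 * k + 1) * (1 - X) ^ 2 := by
      rw [← pow_add]
      congr 1
    rw [e3] at e2
    rw [hQ]
    linear_combination B n (k + 1) * e1 - B n k * e2
  have hQ1 : Q.eval 1 = (E n k).eval 1 * (B n (k + 1)).eval 1 := by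
    rw [hQ, eval_sub, eval_mul, eval_mul, eval_mul, eval_pow, eval_sub, eval_one, eval_X, sub_self]
    ring
  have hQ1' : Q.eval 1 ≠ 0 := by
    rw [hQ1]
    exact mul_ne_zero (E_eval_one (by omega)).ne' (B_eval_one hk)
  have hQ0 : Q ≠ 0 := by
    rintro h
    rw [h, eval_zero] at hQ1'
    exact hQ1' rfl
  have hX : (1 - X : ℤ[X]) ≠ 0 := by
    intro h
    have := congrArg (Polynomial.eval 0) h
    simp at this
  have hXd : (1 - X : ℤ[X]).natDegree = 1 := by
    have : (1 - X : ℤ[X]) = -(X - C 1) := by rw [C_1]; ring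
    rw [this, natDegree_neg, natDegree_X_sub_C]
  have hdeg : ((1 - X : ℤ[X]) ^ (2 * k + 1) * Q).natDegree = 2 * k + 1 + Q.natDegree := by
    rw [natDegree_mul (pow_ne_zero _ hX) hQ0, natDegree_pow, hXd, mul_one]
  have hle : (A n k * B n (k + 1) - A n (k + 1) * B n k).natDegree ≤ 2 * k + 1 := by
    refine (natDegree_sub_le _ _).trans (max_le ?_ ?_)
    · refine natDegree_mul_le.trans ?_
      have a1 := A_natDegree n k
      have a2 := B_natDegree n (k + 1)
      omega
    · refine natDegree_mul_le.trans ?_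
      have a1 := A_natDegree n (k + 1)
      have a2 := B_natDegree n k
      omega
  rw [h1, hdeg] at hle
  have hQd : Q.natDegree = 0 := by omega
  obtain ⟨c, hc⟩ := natDegree_eq_zero.1 hQd
  refine ⟨c, ?_, ?_⟩
  · rintro rfl
    rw [C_0] at hc
    exact hQ0 hc.symm
  · rw [h1, ← hc]
    ring

end Pool.Agent.Work.MP_8d13b5_lc.Pd
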