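import Pool.Agent.Work.MP_8d13b5_lc.Pd.Decide
import Pool.Agent.Work.MP_8d13b5_lc.Bd.B07
import Pool.Agent.Work.MP_8d13b5_lc.Pd.Gauss

set_option autoImplicit false

namespace Pool.Agent.Work.MP_8d13b5_lc.Pd.ResultPadeFamilies

open Pool.Agent.Work.MP_8d13b5_lc Polynomial NumberField

/-- `u` is the sequence with data `p = ((c_1, ..., c_d), (u_0, ..., u_(d-1)))`:
`d ≥ 1`, `c_d ≠ 0` and `u_(n+d) = c_1 u_(n+d-1) + ... + c_d u_n` -/
def IsSeq (p : List ℤ × List ℤ) (u : ℕ → ℤ) : Prop :=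
  p.1.length = p.2.length ∧ 1 ≤ p.1.length ∧ p.1.getD (p.1.length - 1) 0 ≠ 0 ∧
    (∀ i, i < p.1.length → u i = p.2.getD i 0) ∧
    ∀ n : ℕ, u (n + p.1.length) =
      ∑ j ∈ Finset.range p.1.length, p.1.getD j 0 * u (n + p.1.length - 1 - j)

/-- `z` is a characteristic root: `z ^ d = c_1 z ^ (d - 1) + ... + c_d` -/
def IsCharRoot (c : List ℤ) (z : ℂ) : Prop :=
  z ^ c.length = ∑ j ∈ Finset.range c.length, ((c.getD j 0 : ℤ) : ℂ) * z ^ (c.length - 1 - j)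

/-- the order plus the absolute values of all entries of the data -/
def size (p : List ℤ × List ℤ) : ℕ :=
  p.1.length + (p.1.map Int.natAbs).sum + (p.2.map Int.natAbs).sum

/-- the number of binary digits of `size p + 2` -/
def lsize (p : List ℤ × List ℤ) : ℕ := Nat.log 2 (size p + 2) + 1

/-- `s` satisfies the linear recurrence with characteristic polynomial `f`, whose coefficients
are read through the ring homomorphism `ψ` -/
def Rec {A B : Type} [CommRing A] [CommRing B] (ψ : A →+* B) (f : A[X]) (s : ℕ → B) : Prop :=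
  ∀ n, ∑ i ∈ Finset.range (f.natDegree + 1), ψ (f.coeff i) * s (n + i) = 0

/-- the restriction of an embedding to the ring of integers -/
def res {K : Type} [Field K] (φ : K →+* ℂ) : 𝓞 K →+* ℂ := φ.comp (algebraMap (𝓞 K) K)

/-- **Padé families.** Monic polynomials `f`, `g`, `q` with nonzero constant terms over the ring of
integers of a number field `K`, integers `β ≠ β'` of `K` with `β' = β + D ^ m e`, where `D` is
coprime to `β'`, and an exponent `1 ≤ l < 2 m`. The roots of `f` at the embedding `φ` are at most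
`a φ` in absolute value, those of `q` at most `w φ`, and `β`, `β'` are large in comparison with `e`,
`a` and `w` in the sense of the product formula inequality `large`. -/
structure Family (K : Type) [Field K] [NumberField K] where
  f : (𝓞 K)[X]
  g : (𝓞 K)[X]
  q : (𝓞 K)[X]
  c : 𝓞 K
  β : 𝓞 K
  β' : 𝓞 K
  D : 𝓞 K
  e : 𝓞 K
  l : ℕ
  m : ℕ
  a : (K →+* ℂ) → ℝ
  w : (K →+* ℂ) → ℝ
  monic : f.Monic ∧ g.Monic ∧ q.Monic
  coeff : f.coeff 0 ≠ 0 ∧ g.coeff 0 ≠ 0 ∧ q.coeff 0 ≠ 0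
  c_ne : c ≠ 0
  exponents : 1 ≤ l ∧ l < 2 * m
  ne : β ≠ β'
  diff : β' - β = D ^ m * e
  coprime : IsCoprime D β'
  roots : ∀ φ, 1 ≤ a φ ∧ 1 ≤ w φ ∧ (∀ z : ℂ, f.eval₂ (res φ) z = 0 → ‖z‖ ≤ a φ) ∧
    ∀ z : ℂ, q.eval₂ (res φ) z = 0 → ‖z‖ ≤ w φ
  large : ∏ φ : K →+* ℂ,
      max ((32 * a φ) ^ (2 * m) * ‖φ e‖ ^ (2 * l) * (max ‖φ β‖ ‖φ β'‖) ^ (2 * m - l))
        ((128 * w φ) ^ (2 * m) * (max ‖φ β‖ ‖φ β'‖) ^ l) ≤ ∏ φ : K →+* ℂ, ‖φ β'‖ ^ (2 * m)

section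

variable {K : Type} [Field K] [NumberField K]

/-- the polynomial whose roots are `β α`, `β' γ`, `D ^ l δ` with `f(α) = g(γ) = q(δ) = 0` -/
noncomputable def Family.poly (F : Family K) : (𝓞 K)[X] :=
  F.f.scaleRoots F.β * F.g.scaleRoots F.β' * F.q.scaleRoots (F.D ^ F.l)

/-- the conjugates of `c`, `β`, `β'`, `e` are at most `2 ^ A` in absolute value -/
def Family.Bounded (F : Family K) (A : ℕ) : Prop :=
  ∀ φ : K →+* ℂ, ‖φ F.c‖ ≤ 2 ^ A ∧ ‖φ F.β‖ ≤ 2 ^ A ∧ ‖φ F.β'‖ ≤ 2 ^ A ∧ ‖φ F.e‖ ≤ 2 ^ A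

/-- the roots of `F.poly` are `c` times `T`-th powers of characteristic roots -/
def Family.Fits (F : Family K) (p : List ℤ × List ℤ) (T : ℕ) : Prop :=
  F.f.natDegree + F.g.natDegree + F.q.natDegree ≤ p.1.length ∧
    ∀ (φ : K →+* ℂ) (z : ℂ), F.poly.eval₂ (res φ) z = 0 →
      ∃ x : ℂ, IsCharRoot p.1 x ∧ z = φ F.c * x ^ T

/-- `y_n = β^n s_n + β'^n t_n + D^(l n) r_n`, where `s`, `t`, `r` satisfy the recurrences with
characteristic polynomials `f`, `g`, `q` -/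
def Family.Parts (F : Family K) (y s t r : ℕ → K) : Prop :=
  Rec (algebraMap (𝓞 K) K) F.f s ∧ Rec (algebraMap (𝓞 K) K) F.g t ∧
    Rec (algebraMap (𝓞 K) K) F.q r ∧
    ∀ n, y n = (F.β : K) ^ n * s n + (F.β' : K) ^ n * t n + ((F.D : K) ^ F.l) ^ n * r n

end

/-- For some `T ≤ B` and all `j < T`, the subsequence `c^n u_(j + T n)`, `n = 0, 1, ...`, has a
decomposition into parts given by a Padé family of size at most `B`, and one of the three parts
has no zero `n ≥ B`. -/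
def InClass (B : ℕ) (p : List ℤ × List ℤ) (u : ℕ → ℤ) : Prop :=
  ∃ T, 1 ≤ T ∧ T ≤ B ∧ ∀ j < T, ∃ (K : Type) (_ : Field K) (_ : NumberField K) (F : Family K)
    (s t r : ℕ → K), Module.finrank ℚ K ≤ B ∧ F.Bounded B ∧ F.Fits p T ∧
      F.Parts (fun n => (F.c : K) ^ n * (u (j + T * n) : K)) s t r ∧
      ((∀ n, B ≤ n → s n ≠ 0) ∨ (∀ n, B ≤ n → t n ≠ 0) ∨ (∀ n, B ≤ n → r n ≠ 0))

theorem rec_iff {A B : Type} [CommRing A] [CommRing B] [Nontrivial B] (ψ : A →+* B) {f : A[X]}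
    (hf : f.Monic) (s : ℕ → B) : Rec ψ f s ↔ Pd.Sol (f.map ψ) s := by
  unfold Rec Pd.Sol
  rw [hf.natDegree_map]
  simp only [coeff_map]

theorem Family.fam {K : Type} [Field K] [NumberField K] (F : Family K) :
    Pd.Fam K F.f F.g F.q F.β F.β' F.D F.e F.l F.m F.a F.w :=
  ⟨F.monic, F.coeff, F.exponents, F.ne, F.diff, F.coprime, F.roots, F.large⟩

theorem bound {K : Type} [Field K] [NumberField K] (F : Family K) (A : ℕ)
    (p : List ℤ × List ℤ) (u : ℕ → ℤ) (T j : ℕ) (s t r : ℕ → K) (hA : F.Bounded A)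
    (hu : IsSeq p u) (hj : j < T) (hF : F.Fits p T)
    (hP : F.Parts (fun n => (F.c : K) ^ n * (u (j + T * n) : K)) s t r) (n : ℕ)
    (hn : 25 * p.1.length ^ 3 * Module.finrank ℚ K * (A + T * lsize p) < n) (ρ : 𝓞 K)
    (hρ : ∀ φ : K →+* ℂ, ‖φ ρ‖ ≤ (2 * F.w φ) ^ n)
    (h0 : (F.c : K) ^ n * (u (j + T * n) : K) = ((F.D : K) ^ F.l) ^ n * ρ) :
    s n = 0 ∧ t n = 0 ∧ r n = ρ := by
  obtain ⟨hs, ht, hr, hy⟩ := hP
  exact Pd.data_bound F.fam hA hu (T := T) (j := j) (by omega) hj hF.1 hF.2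
    ((rec_iff _ F.monic.1 s).1 hs) ((rec_iff _ F.monic.2.1 t).1 ht)
    ((rec_iff _ F.monic.2.2 r).1 hr) hy hn hρ h0

theorem class_bound (B : ℕ) (p : List ℤ × List ℤ) (u : ℕ → ℤ) (hu : IsSeq p u)
    (hC : InClass B p u) (ν : ℕ) (hν : Pd.bd (p, B) ≤ ν) : u ν ≠ 0 := by
  intro h0
  obtain ⟨T, hT1, hTB, hT⟩ := hC
  obtain ⟨K, iF, iN, F, s, t, r, hk, hB, hF, hP, hz⟩ := hT (ν % T) (Nat.mod_lt _ hT1)
  obtain ⟨h1, h2⟩ := Pd.bd_large (B := B) (p := p) hTB hk hν hT1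
  have h3 : u (ν % T + T * (ν / T)) = 0 := by rw [Nat.mod_add_div]; exact h0
  obtain ⟨hs, ht, hr⟩ := bound F B p u T (ν % T) s t r hB hu (Nat.mod_lt _ hT1) hF hP (ν / T) h1 0
    (fun φ => by
      have := (F.roots φ).2.1
      simp only [map_zero, norm_zero]
      positivity) (by rw [h3]; simp)
  rcases hz with hz | hz | hz
  · exact hz _ h2 hs
  · exact hz _ h2 ht
  · exact hz _ h2 (by rw [hr]; simp)

/-- **The Skolem Problem in Padé families.**

(1) Let `u` be an integer linear recurrence sequence of order `d` with data `p`, and let the sequence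
`c^n u_(j + T n)`, `n = 0, 1, ...`, satisfy the recurrence with characteristic polynomial `F.poly` of a
Padé family `F` over `K` that fits `p`, `T`. Then `c^n u_(j + T n) = β^n s_n + β'^n t_n + D^(l n) r_n`
with solutions `s`, `t`, `r` of the recurrences of `f`, `g`, `q`, and for all
`n > 25 d^3 [K : ℚ] (A + T lsize p)`, where `2 ^ A` bounds the conjugates of `c`, `β`, `β'`, `e`:
if `u_(j + T n) = 0` then `s_n = t_n = r_n = 0`. More generally, if `c^n u_(j + T n) = D^(l n) ρ` for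
an integer `ρ` of `K` with `|φ(ρ)| ≤ (2 w_φ)^n` at all embeddings `φ`, then `s_n = t_n = 0`, `r_n = ρ`.

(2) One primitive recursive algorithm decides, given the data of `u` and a number `B`, whether `u`
has a zero, correctly for all `u` in `InClass B`.

(3) For all `K`, `f`, `g`, `q` and `θ ≠ θ'` and all large natural numbers `N`, the numbers `β = N + θ`,
`β' = N + θ'`, `D = c = 1` give a Padé family.

(4) Explicitly: let `f` be a monic integer polynomial with nonzero constant term and all roots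
at most `a` in absolute value, let `y = D^m z ≠ 0`, `ρ ≠ 0`, let `D` and `x` be coprime, `1 ≤ l < 2 m`,
`(32 a)^(2m) (2 |z|)^(2l) ≤ |x + i y|^l`, `(128 |ρ|)^(2m) ≤ |x + i y|^(2m - l)`, and let `u` be an integer
linear recurrence sequence of order `d` whose characteristic polynomial has the roots
`α (x + i y)`, `α (x - i y)` for the roots `α` of `f`, and `D^l ρ`. If the root `D^l ρ` occurs in `u`
(that is, `u` does not satisfy the recurrence with the other roots only), then `u_n ≠ 0` for all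
`n > 100 d^3 lsize p`. -/
theorem result :
    (∀ (K : Type) [Field K] [NumberField K] (F : Family K) (A : ℕ) (p : List ℤ × List ℤ)
      (u : ℕ → ℤ) (T j : ℕ), F.Bounded A → IsSeq p u → j < T → F.Fits p T →
      Rec (algebraMap (𝓞 K) K) F.poly (fun n => (F.c : K) ^ n * (u (j + T * n) : K)) →
      ∃ s t r : ℕ → K, F.Parts (fun n => (F.c : K) ^ n * (u (j + T * n) : K)) s t r ∧
        ∀ n, 25 * p.1.length ^ 3 * Module.finrank ℚ K * (A + T * lsize p) < n →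
          ∀ ρ : 𝓞 K, (∀ φ : K →+* ℂ, ‖φ ρ‖ ≤ (2 * F.w φ) ^ n) →
            (F.c : K) ^ n * (u (j + T * n) : K) = ((F.D : K) ^ F.l) ^ n * ρ →
              s n = 0 ∧ t n = 0 ∧ r n = ρ) ∧
    (∃ M : (List ℤ × List ℤ) × ℕ → Bool, Primrec M ∧
      ∀ (B : ℕ) (p : List ℤ × List ℤ) (u : ℕ → ℤ), IsSeq p u → InClass B p u →
        (M (p, B) = true ↔ ∃ n, u n = 0)) ∧
    (∀ (K : Type) [Field K] [NumberField K] (f g q : (𝓞 K)[X]) (θ θ' : 𝓞 K), f.Monic → g.Monic →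
      q.Monic → f.coeff 0 ≠ 0 → g.coeff 0 ≠ 0 → q.coeff 0 ≠ 0 → θ ≠ θ' →
      ∃ N₀ : ℕ, ∀ N : ℕ, N₀ ≤ N → ∃ F : Family K, F.f = f ∧ F.g = g ∧ F.q = q ∧ F.c = 1 ∧
        F.β = N + θ ∧ F.β' = N + θ' ∧ F.D = 1) ∧
    (∀ (f : ℤ[X]) (a : ℝ) (x y z D ρ : ℤ) (l m : ℕ) (p : List ℤ × List ℤ) (u : ℕ → ℤ),
      f.Monic → 1 ≤ f.natDegree → f.coeff 0 ≠ 0 → 1 ≤ a → (∀ z : ℂ, aeval z f = 0 → ‖z‖ ≤ a) →
      1 ≤ l → l < 2 * m → y = D ^ m * z → y ≠ 0 → ρ ≠ 0 → IsCoprime D x →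
      (32 * a) ^ (2 * m) * (2 * |(z : ℝ)|) ^ (2 * l) ≤ ‖(x : ℂ) + y * Complex.I‖ ^ l →
      (128 * |(ρ : ℝ)|) ^ (2 * m) ≤ ‖(x : ℂ) + y * Complex.I‖ ^ (2 * m - l) → IsSeq p u →
      (X ^ p.1.length -
          ∑ j ∈ Finset.range p.1.length, C ((p.1.getD j 0 : ℤ) : ℂ) * X ^ (p.1.length - 1 - j) =
        (f.map (algebraMap ℤ ℂ)).scaleRoots (x + y * Complex.I) *
          (f.map (algebraMap ℤ ℂ)).scaleRoots (x - y * Complex.I) *
          (X - C ((D : ℂ) ^ l * ρ))) →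
      ¬ Rec (RingHom.id ℂ) ((f.map (algebraMap ℤ ℂ)).scaleRoots (x + y * Complex.I) *
          (f.map (algebraMap ℤ ℂ)).scaleRoots (x - y * Complex.I)) (fun n => (u n : ℂ)) →
      ∀ n, 100 * p.1.length ^ 3 * lsize p < n → u n ≠ 0) := by
  refine ⟨?_, ?_, ?_, ?_⟩
  · intro K _ _ F A p u T j h1 h2 h3 h4 h5
    have hP : F.poly.Monic := ((Pd.monic_scaleRoots F.monic.1 _).mul
      (Pd.monic_scaleRoots F.monic.2.1 _)).mul (Pd.monic_scaleRoots F.monic.2.2 _)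
    obtain ⟨s, t, r, hs, ht, hr, h⟩ := F.fam.parts ((rec_iff _ hP _).1 h5)
    have hparts : F.Parts (fun n => (F.c : K) ^ n * (u (j + T * n) : K)) s t r :=
      ⟨(rec_iff _ F.monic.1 s).2 hs, (rec_iff _ F.monic.2.1 t).2 ht,
        (rec_iff _ F.monic.2.2 r).2 hr, h⟩
    exact ⟨s, t, r, hparts, fun n h6 ρ h7 h8 =>
      bound F A p u T j s t r h1 h2 h3 h4 hparts n h6 ρ h7 h8⟩
  · exact Pd.decide_of_bd InClass class_bound
  · intro K _ _ f g q θ θ' hf hg hq hf0 hg0 hq0 hθ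
    obtain ⟨a, w, N₀, h⟩ := Pd.translation hf hg hq hf0 hg0 hq0 hθ
    refine ⟨N₀, fun N hN => ?_⟩
    have H := h N hN
    exact ⟨⟨f, g, q, 1, (N : 𝓞 K) + θ, (N : 𝓞 K) + θ', 1, θ' - θ, 1, 1, a, w, H.monic, H.coeff,
      one_ne_zero, H.exps, H.ne, H.diff, H.coprime, H.roots, H.large⟩, rfl, rfl, rfl, rfl, rfl,
      rfl, rfl⟩
  · intro f a x y z D ρ l m p u hf hdeg hf0 ha1 ha hl hlm hyz hy0 hρ0 hD hc1 hc2 hu hχ hnot n hn
    refine Pd.gauss hf hf0 hdeg ha1 ha hl hlm hyz hy0 hρ0 hD hc1 hc2 hu ?_ ?_ hn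
    · rw [← hχ, Pd.chi, Polynomial.map_sub, Polynomial.map_pow, map_X, Polynomial.map_sum]
      congr 1
      refine Finset.sum_congr rfl fun j _ => ?_
      rw [Polynomial.map_mul, Polynomial.map_pow, map_X, Polynomial.map_C]
      rfl
    · intro h
      apply hnot
      intro n
      exact h n

end Pool.Agent.Work.MP_8d13b5_lc.Pd.ResultPadeFamilies
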